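import Pool.Agent.P.MP_639dfe_co.Normal

namespace Pool.Agent.P.MP_639dfe_co

open Finset SignType Lab

theorem SameType.refl (P : Finset (ℝ × ℝ)) : SameType P P := ⟨Equiv.refl _, fun _ _ _ => rfl⟩

theorem SameType.symm {P Q : Finset (ℝ × ℝ)} (h : SameType P Q) : SameType Q P := by
  obtain ⟨f, hf⟩ := h
  refine ⟨f.symm, fun a b c => ?_⟩
  have := hf (f.symm a) (f.symm b) (f.symm c)
  simp only [Equiv.apply_symm_apply] at this
  exact this.symm

theorem SameType.trans {P Q R : Finset (ℝ × ℝ)} (h : SameType P Q) (k : SameType Q R) :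
    SameType P R := by
  obtain ⟨f, hf⟩ := h
  obtain ⟨g, hg⟩ := k
  exact ⟨f.trans g, fun a b c => (hg _ _ _).trans (hf a b c)⟩

theorem SameType.exists_fun {P Q : Finset (ℝ × ℝ)} (h : SameType P Q) :
    ∃ f : ℝ × ℝ → ℝ × ℝ, Set.BijOn f P Q ∧
      ∀ x ∈ P, ∀ y ∈ P, ∀ z ∈ P, sign (D (f x) (f y) (f z)) = sign (D x y z) := by
  classical
  obtain ⟨e, he⟩ := h
  refine ⟨fun x => if hx : x ∈ P then (e ⟨x, hx⟩ : ℝ × ℝ) else x, ⟨?_, ?_, ?_⟩, ?_⟩
  · intro x hx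
    simp only [dif_pos (mem_coe.1 hx)]
    exact (e ⟨x, hx⟩).2
  · intro x hx y hy hxy
    simp only [dif_pos (mem_coe.1 hx), dif_pos (mem_coe.1 hy)] at hxy
    exact congrArg Subtype.val (e.injective (Subtype.ext hxy))
  · intro y hy
    refine ⟨e.symm ⟨y, hy⟩, (e.symm ⟨y, hy⟩).2, ?_⟩
    simp
  · intro x hx y hy z hz
    simp only [dif_pos hx, dif_pos hy, dif_pos hz]
    exact he ⟨x, hx⟩ ⟨y, hy⟩ ⟨z, hz⟩

theorem sameType_of_code {S S' : Finset (ℝ × ℝ)} {q q' : ℝ × ℝ} {F G κ F' G' κ' : ℝ × ℝ → ℝ}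
    (h : Normal S q F G κ) (h' : Normal S' q' F' G' κ') (hw : word S F G κ = word S' F' G' κ')
    (hO : HasO S F G ↔ HasO S' F' G') (hq : q ∈ S ↔ q' ∈ S') : SameType S S' := by
  classical
  obtain ⟨φ, hφ, hφ'⟩ := exists_map_of_map_eq _ _ _ _ (pairwise_sort_lt _) (pairwise_sort_lt _) hw
  simp only [mem_sort] at hφ hφ'
  have hex : ∀ x, ∃ y, (x = q → y = q') ∧
      (x ∈ S → F x = 0 → G x = 0 → y ∈ S' ∧ F' y = 0 ∧ G' y = 0) ∧
      (x ∈ core S F G → y ∈ core S' F' G' ∧ κ' y = φ (κ x) ∧ lab F' G' y = lab F G x) := by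
    intro x
    by_cases hc : x ∈ core S F G
    · have h1 := (hφ' (κ x) (mem_image_of_mem _ hc)).2
      have h2 : lab F G x ∈ letter (core S F G) κ (lab F G) (κ x) :=
        mem_letter.2 ⟨x, hc, rfl, rfl⟩
      rw [← h1] at h2
      obtain ⟨y, hy, y1, y2⟩ := mem_letter.1 h2
      refine ⟨y, fun e => ?_, fun _ e1 e2 => ?_, fun _ => ⟨hy, y1, y2⟩⟩
      · exact absurd (by rw [e, h.Fq, h.Gq]) (mem_core.1 hc).2
      · exact absurd (e1.trans e2.symm) (mem_core.1 hc).2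
    by_cases ho : x ∈ S ∧ F x = 0 ∧ G x = 0
    · obtain ⟨y, hy⟩ := hO.1 ⟨x, ho⟩
      refine ⟨y, fun e => ?_, fun _ _ _ => hy, fun e => absurd e hc⟩
      have := ho.2.1
      rw [e, h.Fq] at this
      exact absurd this one_ne_zero
    · exact ⟨q', fun _ => rfl, fun a b c => absurd ⟨a, b, c⟩ ho, fun e => absurd e hc⟩
  choose f f1 f2 f3 using hex
  have hfq : f q = q' := f1 q rfl
  have hsig : ∀ x ∈ S, f x ∈ S' ∧ sign (F' (f x)) = sign (F x) ∧ sign (G' (f x)) = sign (G x) ∧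
      sign (F' (f x) - G' (f x)) = sign (F x - G x) := by
    intro x hx
    rcases h.tri hx with rfl | ⟨o1, o2⟩ | hc
    · rw [hfq, h.Fq, h.Gq, h'.Fq, h'.Gq]
      exact ⟨hq.1 hx, rfl, rfl, rfl⟩
    · obtain ⟨a, b, c⟩ := f2 x hx o1 o2
      rw [b, c, o1, o2]
      exact ⟨a, rfl, rfl, rfl⟩
    · obtain ⟨a, -, c⟩ := f3 x hc
      obtain ⟨s1, s2, s3⟩ := h.signs hc
      obtain ⟨t1, t2, t3⟩ := h'.signs a
      rw [s1, s2, s3, t1, t2, t3, c]
      exact ⟨(mem_core.1 a).1, rfl, rfl, rfl⟩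
  have hOx : ∀ x ∈ S, ∀ y ∈ S, F x = 0 → G x = 0 →
      sign (D q' (f x) (f y)) = sign (D q x y) := by
    intro x hx y hy o1 o2
    obtain ⟨a, b, c⟩ := f2 x hx o1 o2
    rw [h.keyO x hx y hy o1 o2, h'.keyO _ a _ (hsig y hy).1 b c, (hsig y hy).2.2.2]
  obtain ⟨hinj, hD⟩ := transfer (S := S) h.hF h.hG h'.hF h'.hG h.Fq h.Gq h'.Fq h'.Gq h.cover hfq
    (fun x hx => (hsig x hx).2.1) (fun x hx => (hsig x hx).2.2.1)
    (by
      intro x hx y hy
      rcases h.tri hx with rfl | ⟨o1, o2⟩ | hc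
      · rw [hfq, D_self12, D_self12]
      · exact hOx x hx y hy o1 o2
      rcases h.tri hy with rfl | ⟨o1, o2⟩ | hc'
      · rw [hfq, D_self13, D_self13]
      · rw [D_swap23, D_swap23 q, Left.sign_neg, Left.sign_neg, hOx y hy x hx o1 o2]
      obtain ⟨a1, a2, -⟩ := f3 x hc
      obtain ⟨b1, b2, -⟩ := f3 y hc'
      rw [h.key x hx y hy (mem_core.1 hc).2 (mem_core.1 hc').2,
        h'.key _ (mem_core.1 a1).1 _ (mem_core.1 b1).1 (mem_core.1 a1).2 (mem_core.1 b1).2,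
        (hsig x hx).2.2.2, (hsig y hy).2.2.2, a2, b2,
        sign_sub_eq_of_mono hφ (mem_image_of_mem _ hc) (mem_image_of_mem _ hc')])
  have hcard : S.card = S'.card := by
    rw [h.card_eq, h'.card_eq, hw]
    simp only [hO, hq]
  have himg : S.image f = S' := by
    refine eq_of_subset_of_card_le (fun y hy => ?_) (by rw [card_image_of_injOn hinj, hcard])
    obtain ⟨x, hx, rfl⟩ := mem_image.1 hy
    exact (hsig x hx).1
  rw [← himg]
  exact sameType_image hinj hD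

theorem wordOf_eq {C C' : Finset (ℝ × ℝ)} {κ κ' : ℝ × ℝ → ℝ} {l l' : ℝ × ℝ → Lab}
    {f : ℝ × ℝ → ℝ × ℝ} (h1 : ∀ x ∈ C, f x ∈ C') (h2 : ∀ y ∈ C', ∃ x ∈ C, f x = y)
    (h3 : ∀ x ∈ C, l' (f x) = l x)
    (h4 : ∀ x ∈ C, ∀ y ∈ C, sign (κ' (f y) - κ' (f x)) = sign (κ y - κ x)) :
    wordOf C κ l = wordOf C' κ' l' := by
  classical
  have hlt : ∀ x ∈ C, ∀ y ∈ C, κ x < κ y → κ' (f x) < κ' (f y) := by
    intro x hx y hy hxy
    have := h4 x hx y hy
    rw [sign_pos (sub_pos.2 hxy), sign_eq_one_iff] at this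
    exact sub_pos.1 this
  have heq : ∀ x ∈ C, ∀ y ∈ C, κ' (f x) = κ' (f y) ↔ κ x = κ y := by
    intro x hx y hy
    have := h4 y hy x hx
    rw [← sub_eq_zero, ← sign_eq_zero_iff, this, sign_eq_zero_iff, sub_eq_zero]
  have hex : ∀ k : ℝ, ∃ k' : ℝ, ∀ x ∈ C, κ x = k → κ' (f x) = k' := by
    intro k
    by_cases hk : ∃ x ∈ C, κ x = k
    · obtain ⟨x, hx, rfl⟩ := hk
      exact ⟨κ' (f x), fun y hy e => (heq y hy x hx).2 e⟩
    · exact ⟨0, fun x hx e => absurd ⟨x, hx, e⟩ hk⟩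
  choose φ hφ using hex
  have hφ' : ∀ x ∈ C, φ (κ x) = κ' (f x) := fun x hx => (hφ _ x hx rfl).symm
  have hs : ((C.image κ).sort (· ≤ ·)).map φ = (C'.image κ').sort (· ≤ ·) := by
    refine List.Pairwise.eq_of_mem_iff (r := (· < ·)) ?_ (pairwise_sort_lt _) fun a => ?_
    · rw [List.pairwise_map]
      refine List.Pairwise.imp_of_mem ?_ (pairwise_sort_lt _)
      intro a b ha hb hab
      obtain ⟨x, hx, rfl⟩ := mem_image.1 ((mem_sort _).1 ha)
      obtain ⟨y, hy, rfl⟩ := mem_image.1 ((mem_sort _).1 hb)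
      rw [hφ' x hx, hφ' y hy]
      exact hlt x hx y hy hab
    · simp only [List.mem_map, mem_sort, mem_image]
      constructor
      · rintro ⟨_, ⟨x, hx, rfl⟩, rfl⟩
        exact ⟨f x, h1 x hx, (hφ' x hx).symm⟩
      · rintro ⟨y, hy, rfl⟩
        obtain ⟨x, hx, rfl⟩ := h2 y hy
        exact ⟨_, ⟨x, hx, rfl⟩, hφ' x hx⟩
  unfold wordOf
  rw [← hs, List.map_map]
  refine List.map_congr_left fun k hk => ?_
  obtain ⟨x, hx, rfl⟩ := mem_image.1 ((mem_sort _).1 hk)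
  ext a
  simp only [Function.comp, mem_letter, hφ' x hx]
  constructor
  · rintro ⟨u, hu, u1, rfl⟩
    exact ⟨f u, h1 u hu, (heq u hu x hx).2 u1, h3 u hu⟩
  · rintro ⟨v, hv, v1, rfl⟩
    obtain ⟨u, hu, rfl⟩ := h2 v hv
    exact ⟨u, hu, (heq u hu x hx).1 v1, (h3 u hu).symm⟩

theorem line_image {S S' A : Finset (ℝ × ℝ)} {q q' : ℝ × ℝ} {F F' G' : ℝ × ℝ → ℝ}
    {f : ℝ × ℝ → ℝ × ℝ} (hF : IsAff F) (Fq : F q = 1) (hF' : IsAff F') (hG' : IsAff G')
    (Fq' : F' q' = 1) (Gq' : G' q' = 1) (cover : ∀ x ∈ S', x = q' ∨ F' x = 0 ∨ G' x = 0)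
    (hf : Set.BijOn f S S')
    (hD : ∀ x ∈ S, ∀ y ∈ S, ∀ z ∈ S, sign (D (f x) (f y) (f z)) = sign (D x y z))
    (hAS : A ⊆ S) (hA : ∀ x ∈ A, F x = 0) (hcard : 4 ≤ A.card) :
    ∃ H : ℝ × ℝ → ℝ, (H = F' ∨ H = G') ∧ (∀ x ∈ S, F x = 0 ↔ H (f x) = 0) ∧
      (q ∈ S → f q = q' → ∀ z ∈ S, sign (H (f z)) = sign (F z)) := by
  classical
  have main : ∀ H : ℝ × ℝ → ℝ, IsAff H → H q' = 1 → 1 < (A.filter fun x => H (f x) = 0).card →
      (∀ x ∈ S, F x = 0 ↔ H (f x) = 0) ∧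
        (q ∈ S → f q = q' → ∀ z ∈ S, sign (H (f z)) = sign (F z)) := by
    intro H hH Hq hc
    obtain ⟨u, hu, v, hv, huv⟩ := one_lt_card.1 hc
    obtain ⟨uA, Hu⟩ := mem_filter.1 hu
    obtain ⟨vA, Hv⟩ := mem_filter.1 hv
    have uS := hAS uA
    have vS := hAS vA
    have huv' : f u ≠ f v := fun e => huv (hf.injOn uS vS e)
    have n1 : F q ≠ 0 := by rw [Fq]; exact one_ne_zero
    have n2 : H q' ≠ 0 := by rw [Hq]; exact one_ne_zero
    constructor
    · intro x hx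
      have e := hD u uS v vS x hx
      constructor
      · intro h0
        rw [hF.D_eq_zero (hA u uA) (hA v vA) h0 n1, sign_zero, sign_eq_zero_iff] at e
        by_contra hn
        exact hH.D_ne_zero Hu Hv huv' hn e
      · intro h0
        rw [hH.D_eq_zero Hu Hv h0 n2, sign_zero, eq_comm, sign_eq_zero_iff] at e
        by_contra hn
        exact hF.D_ne_zero (hA u uA) (hA v vA) huv hn e
    · intro hq hfq z hz
      have e := hD u uS v vS z hz
      have e2 := hD q hq u uS v vS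
      rw [sign_D_of_line hF Fq (hA u uA) (hA v vA), sign_D_of_line hH Hq Hu Hv, ← hfq, e2] at e
      have n3 : sign (D q u v) ≠ 0 := by
        rw [Ne, sign_eq_zero_iff, D_cyc]
        exact hF.D_ne_zero (hA u uA) (hA v vA) huv n1
      exact mul_right_cancel₀ n3 e
  by_cases c1 : 1 < (A.filter fun x => F' (f x) = 0).card
  · exact ⟨F', Or.inl rfl, main F' hF' Fq' c1⟩
  by_cases c2 : 1 < (A.filter fun x => G' (f x) = 0).card
  · exact ⟨G', Or.inr rfl, main G' hG' Gq' c2⟩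
  exfalso
  have c3 : (A.filter fun x => f x = q').card ≤ 1 := by
    rw [card_le_one]
    intro a ha b hb
    exact hf.injOn (hAS (mem_filter.1 ha).1) (hAS (mem_filter.1 hb).1)
      ((mem_filter.1 ha).2.trans (mem_filter.1 hb).2.symm)
  have hsub : A ⊆ (A.filter fun x => f x = q') ∪
      ((A.filter fun x => F' (f x) = 0) ∪ (A.filter fun x => G' (f x) = 0)) := by
    intro x hx
    simp only [mem_union, mem_filter, hx, true_and]
    exact cover _ (hf.mapsTo (hAS hx))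
  have := (card_le_card hsub).trans ((card_union_le _ _).trans
    (Nat.add_le_add_left (card_union_le _ _) _))
  omega

theorem countP_word_le (C : Finset (ℝ × ℝ)) (κ : ℝ × ℝ → ℝ) (l : ℝ × ℝ → Lab) (a b : Lab) :
    (wordOf C κ l).countP (fun t => a ∈ t ∨ b ∈ t) ≤
      (C.filter fun x => l x = a ∨ l x = b).card := by
  classical
  unfold wordOf
  rw [List.countP_map, List.countP_eq_length_filter,
    ← List.toFinset_card_of_nodup ((sort_nodup _ _).filter _)]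
  refine le_trans (card_le_card fun k hk => ?_) (card_image_le (f := κ))
  simp only [List.mem_toFinset, List.mem_filter, Function.comp, decide_eq_true_eq,
    mem_letter] at hk
  rcases hk.2 with ⟨x, hx, x1, x2⟩ | ⟨x, hx, x1, x2⟩
  · exact mem_image.2 ⟨x, mem_filter.2 ⟨hx, Or.inl x2⟩, x1⟩
  · exact mem_image.2 ⟨x, mem_filter.2 ⟨hx, Or.inr x2⟩, x1⟩

theorem Normal.lab_am {S : Finset (ℝ × ℝ)} {q : ℝ × ℝ} {F G κ : ℝ × ℝ → ℝ}
    (h : Normal S q F G κ) {x : ℝ × ℝ} (hx : x ∈ core S F G) (e : lab F G x = am) :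
    F x = 0 ∧ G x < 0 := by
  rcases h.cases hx with ⟨h1, h2⟩ | ⟨h1, h2⟩ | ⟨h1, h2⟩ | ⟨h1, h2⟩ <;>
    first | exact h2 | exact absurd (e.symm.trans h1) (by decide)

theorem Normal.lab_bm {S : Finset (ℝ × ℝ)} {q : ℝ × ℝ} {F G κ : ℝ × ℝ → ℝ}
    (h : Normal S q F G κ) {x : ℝ × ℝ} (hx : x ∈ core S F G) (e : lab F G x = bm) :
    G x = 0 ∧ F x < 0 := by
  rcases h.cases hx with ⟨h1, h2⟩ | ⟨h1, h2⟩ | ⟨h1, h2⟩ | ⟨h1, h2⟩ <;>
    first | exact absurd (e.symm.trans h1) (by decide) | exact h2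

theorem code_of_sameType {S S' : Finset (ℝ × ℝ)} {q q' : ℝ × ℝ} {F G κ F' G' κ' : ℝ × ℝ → ℝ}
    (h : Normal S q F G κ) (h' : Normal S' q' F' G' κ') (hq : q ∈ S) (hq' : q' ∈ S')
    (hs : SameType S S') (hn : NonDeg (word S F G κ)) :
    word S F G κ = word S' F' G' κ' := by
  classical
  obtain ⟨f, hf, hD⟩ := hs.exists_fun
  obtain ⟨n1, n2, ⟨t, ht, hta⟩, ⟨t', ht', htb⟩⟩ := hn
  obtain ⟨_, -, rfl⟩ := mem_wordOf.1 ht
  obtain ⟨_, -, rfl⟩ := mem_wordOf.1 ht'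
  obtain ⟨a, ha, -, la⟩ := mem_letter.1 hta
  obtain ⟨b, hb, -, lb⟩ := mem_letter.1 htb
  obtain ⟨a1, a2⟩ := h.lab_am ha la
  obtain ⟨b1, b2⟩ := h.lab_bm hb lb
  have aS := (mem_core.1 ha).1
  have bS := (mem_core.1 hb).1
  obtain ⟨H1, hH1, z1, s1⟩ := line_image (A := (core S F G).filter fun x =>
      lab F G x = am ∨ lab F G x = ap) h.hF h.Fq h'.hF h'.hG h'.Fq h'.Gq h'.cover hf hD
    (fun x hx => (mem_core.1 (mem_filter.1 hx).1).1)
    (fun x hx => by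
      have := (h.signs (mem_filter.1 hx).1).1
      rcases (mem_filter.1 hx).2 with e | e <;> rw [e] at this <;> exact sign_eq_zero_iff.1 this)
    (n1.trans (countP_word_le _ _ _ _ _))
  obtain ⟨H2, hH2, z2, s2⟩ := line_image (A := (core S F G).filter fun x =>
      lab F G x = bp ∨ lab F G x = bm) h.hG h.Gq h'.hF h'.hG h'.Fq h'.Gq h'.cover hf hD
    (fun x hx => (mem_core.1 (mem_filter.1 hx).1).1)
    (fun x hx => by
      have := (h.signs (mem_filter.1 hx).1).2.1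
      rcases (mem_filter.1 hx).2 with e | e <;> rw [e] at this <;> exact sign_eq_zero_iff.1 this)
    (n2.trans (countP_word_le _ _ _ _ _))
  have hne : H1 ≠ H2 := fun e => a2.ne ((z2 a aS).2 (e ▸ (z1 a aS).1 a1))
  have H1q : H1 q' = 1 := by rcases hH1 with rfl | rfl; exacts [h'.Fq, h'.Gq]
  have H2q : H2 q' = 1 := by rcases hH2 with rfl | rfl; exacts [h'.Fq, h'.Gq]
  have hfq : f q = q' := by
    obtain ⟨x, hx, e⟩ := hf.surjOn hq'
    rcases h.cover x hx with rfl | h0 | h0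
    · exact e
    · have := (z1 x hx).1 h0
      rw [e, H1q] at this
      exact absurd this one_ne_zero
    · have := (z2 x hx).1 h0
      rw [e, H2q] at this
      exact absurd this one_ne_zero
  replace s1 := s1 hq hfq
  replace s2 := s2 hq hfq
  have hcore : ∀ x ∈ core S F G, H1 (f x) ≠ H2 (f x) := by
    intro x hx e
    have xS := (mem_core.1 hx).1
    have e2 : sign (F x) = sign (G x) := by rw [← s1 x xS, ← s2 x xS, e]
    rw [(h.signs hx).1, (h.signs hx).2.1] at e2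
    revert e2
    cases lab F G x <;> decide
  have hkey : ∀ x ∈ core S F G, ∀ y ∈ core S F G, f x ∈ core S' F' G' → f y ∈ core S' F' G' →
      sE (lab F' G' (f x)) * sE (lab F' G' (f y)) = sE (lab F G x) * sE (lab F G y) →
      sign (κ' (f y) - κ' (f x)) = sign (κ y - κ x) := by
    intro x hx y hy hx' hy' e
    have e1 := hD q hq x (mem_core.1 hx).1 y (mem_core.1 hy).1
    rw [hfq, h.key x (mem_core.1 hx).1 y (mem_core.1 hy).1 (mem_core.1 hx).2 (mem_core.1 hy).2,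
      h'.key _ (mem_core.1 hx').1 _ (mem_core.1 hy').1 (mem_core.1 hx').2 (mem_core.1 hy').2,
      (h.signs hx).2.2, (h.signs hy).2.2, (h'.signs hx').2.2, (h'.signs hy').2.2, e] at e1
    refine mul_left_cancel₀ ?_ e1
    cases lab F G x <;> cases lab F G y <;> decide
  rcases hH1 with rfl | rfl <;> rcases hH2 with rfl | rfl
  · exact absurd rfl hne
  · have hc : ∀ x ∈ core S F G, f x ∈ core S' H1 H2 := fun x hx =>
      mem_core.2 ⟨hf.mapsTo (mem_core.1 hx).1, hcore x hx⟩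
    have hl : ∀ x ∈ core S F G, lab H1 H2 (f x) = lab F G x := by
      intro x hx
      refine lab_ext _ _ ?_ ?_
      · rw [← (h'.signs (hc x hx)).1, ← (h.signs hx).1, s1 x (mem_core.1 hx).1]
      · rw [← (h'.signs (hc x hx)).2.1, ← (h.signs hx).2.1, s2 x (mem_core.1 hx).1]
    refine wordOf_eq hc (fun y hy => ?_) hl fun x hx y hy =>
      hkey x hx y hy (hc x hx) (hc y hy) (by rw [hl x hx, hl y hy])
    obtain ⟨x, hx, rfl⟩ := hf.surjOn (mem_core.1 hy).1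
    refine ⟨x, ?_, rfl⟩
    rcases h.tri hx with rfl | ⟨o1, o2⟩ | hc
    · exact absurd (by rw [hfq, H1q, H2q]) (mem_core.1 hy).2
    · exact absurd (((z1 x hx).1 o1).trans ((z2 x hx).1 o2).symm) (mem_core.1 hy).2
    · exact hc
  · exfalso
    have ha' : f a ∈ core S' H2 H1 := mem_core.2 ⟨hf.mapsTo aS, (hcore a ha).symm⟩
    have hb' : f b ∈ core S' H2 H1 := mem_core.2 ⟨hf.mapsTo bS, (hcore b hb).symm⟩
    have la' : lab H2 H1 (f a) = bm := by
      refine lab_ext _ _ ?_ ?_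
      · rw [← (h'.signs ha').1, s2 a aS, sign_neg a2]; rfl
      · rw [← (h'.signs ha').2.1, s1 a aS, a1, sign_zero]; rfl
    have lb' : lab H2 H1 (f b) = am := by
      refine lab_ext _ _ ?_ ?_
      · rw [← (h'.signs hb').1, s2 b bS, b1, sign_zero]; rfl
      · rw [← (h'.signs hb').2.1, s1 b bS, sign_neg b2]; rfl
    have e := hkey a ha b hb ha' hb' (by rw [la, lb, la', lb']; decide)
    have k1 := h.v2 b bS a aS b1 b2 a1 a2
    obtain ⟨c1, c2⟩ := h'.lab_bm ha' la'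
    obtain ⟨d1, d2⟩ := h'.lab_am hb' lb'
    have k2 := h'.v2 _ (mem_core.1 ha').1 _ (mem_core.1 hb').1 c1 c2 d1 d2
    rw [sign_pos (sub_pos.2 k1), sign_neg (sub_neg.2 k2)] at e
    exact absurd e (by decide)
  · exact absurd rfl hne

end Pool.Agent.P.MP_639dfe_co
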