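import Mathlib

namespace Pool.Agent.P.MP_639dfe_co

open Finset

/-- labels of points: on the first line (two kinds) or on the second line (two kinds) -/
inductive Lab
  | am | ap | bp | bm
  deriving DecidableEq, Fintype

namespace Lab

/-- first phase in which a label may occur -/
def lo : Lab → ℕ
  | am => 1 | ap => 2 | bp => 1 | bm => 3

/-- last phase in which a label may occur -/
def hi : Lab → ℕ
  | am => 1 | ap => 3 | bp => 2 | bm => 3

end Lab

open Lab

/-- next state -/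
def nx (s : ℕ) (l : Finset Lab) : ℕ := max s (l.sup lo)

/-- letter allowed in a state -/
def ok (s : ℕ) (l : Finset Lab) : Prop := l.Nonempty ∧ ∀ b ∈ l, nx s l ≤ hi b

instance (s : ℕ) : DecidablePred (ok s) := fun l => by unfold ok; infer_instance

/-- valid words from a state -/
def Val : ℕ → List (Finset Lab) → Prop
  | _, [] => True
  | s, l :: w => ok s l ∧ Val (nx s l) w

/-- weight of a word -/
def wt (w : List (Finset Lab)) : ℕ := (w.map card).sum

theorem val_iff (w : List (Finset Lab)) : ∀ s, Val s w ↔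
    (∀ l ∈ w, l.Nonempty ∧ (∀ b ∈ l, s ≤ hi b) ∧ ∀ a ∈ l, ∀ b ∈ l, lo a ≤ hi b) ∧
      w.Pairwise fun l l' => ∀ a ∈ l, ∀ b ∈ l', lo a ≤ hi b := by
  induction w with
  | nil => simp [Val]
  | cons l w ih =>
    intro s
    simp only [Val, ih, ok, nx, max_le_iff, Finset.sup_le_iff, List.mem_cons, forall_eq_or_imp,
      List.pairwise_cons]
    constructor
    · rintro ⟨⟨h1, h2⟩, h3, h4⟩
      exact ⟨⟨⟨h1, fun b hb => (h2 b hb).1, fun a ha b hb => (h2 b hb).2 a ha⟩,
        fun l' hl' => ⟨(h3 l' hl').1, fun b hb => ((h3 l' hl').2.1 b hb).1, (h3 l' hl').2.2⟩⟩,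
        fun l' hl' a ha b hb => ((h3 l' hl').2.1 b hb).2 a ha, h4⟩
    · rintro ⟨⟨⟨h1, h2, h3⟩, h4⟩, h5, h6⟩
      exact ⟨⟨h1, fun b hb => ⟨h2 b hb, fun a ha => h3 a ha b hb⟩⟩,
        fun l' hl' => ⟨(h4 l' hl').1, fun b hb => ⟨(h4 l' hl').2.1 b hb,
          fun a ha => h5 l' hl' a ha b hb⟩, (h4 l' hl').2.2⟩, h6⟩

theorem length_le_wt : ∀ (w : List (Finset Lab)) (s : ℕ), Val s w → w.length ≤ wt w
  | [], _, _ => by simp
  | l :: w, s, h => by
    have h1 := length_le_wt w _ h.2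
    have h2 := h.1.1.card_pos
    simp only [wt, List.length_cons, List.map_cons, List.sum_cons] at h1 ⊢
    omega

open Classical in
/-- valid words of a given weight -/
noncomputable def V (s m : ℕ) : Finset (List (Finset Lab)) :=
  (List.finite_length_le (Finset Lab) m).toFinset.filter fun w => Val s w ∧ wt w = m

theorem mem_V {s m : ℕ} {w : List (Finset Lab)} : w ∈ V s m ↔ Val s w ∧ wt w = m := by
  classical
  unfold V
  rw [mem_filter, Set.Finite.mem_toFinset]
  exact ⟨fun h => h.2, fun h => ⟨h.2 ▸ length_le_wt w s h.1, h⟩⟩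

theorem V_zero (s : ℕ) : V s 0 = {[]} := by
  ext w
  rw [mem_V, mem_singleton]
  constructor
  · rintro ⟨h1, h2⟩
    have := length_le_wt w s h1
    rw [h2] at this
    exact List.length_eq_zero_iff.1 (Nat.le_zero.1 this)
  · rintro rfl
    exact ⟨trivial, rfl⟩

theorem V_succ (s m : ℕ) : V s (m + 1) =
    (univ.filter fun l => ok s l ∧ l.card ≤ m + 1).biUnion
      fun l => (V (nx s l) (m + 1 - l.card)).image (l :: ·) := by
  ext w
  simp only [mem_V, mem_biUnion, mem_filter, mem_univ, true_and, mem_image]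
  constructor
  · rintro ⟨h1, h2⟩
    cases w with
    | nil => simp [wt] at h2
    | cons l w =>
      simp only [wt, List.map_cons, List.sum_cons] at h2
      exact ⟨l, ⟨h1.1, by omega⟩, w, ⟨h1.2, by unfold wt; omega⟩, rfl⟩
  · rintro ⟨l, ⟨h1, h2⟩, w, ⟨h3, h4⟩, rfl⟩
    refine ⟨⟨h1, h3⟩, ?_⟩
    simp only [wt, List.map_cons, List.sum_cons] at h4 ⊢
    omega

/-- weighted count of valid words -/
noncomputable def H (ω : Finset Lab → ℝ) (s m : ℕ) : ℝ := ∑ w ∈ V s m, (w.map ω).prod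

theorem H_zero (ω : Finset Lab → ℝ) (s : ℕ) : H ω s 0 = 1 := by simp [H, V_zero]

theorem H_succ (ω : Finset Lab → ℝ) (s m : ℕ) : H ω s (m + 1) =
    ∑ l ∈ univ.filter fun l => ok s l ∧ l.card ≤ m + 1, ω l * H ω (nx s l) (m + 1 - l.card) := by
  unfold H
  rw [V_succ, sum_biUnion]
  · refine sum_congr rfl fun l _ => ?_
    rw [sum_image fun a _ b _ h => (List.cons.inj h).2, mul_sum]
    simp
  · intro l _ l' _ hne
    rw [Function.onFun, disjoint_left]
    intro w hw hw'
    obtain ⟨a, -, rfl⟩ := mem_image.1 hw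
    obtain ⟨b, -, h⟩ := mem_image.1 hw'
    exact hne (List.cons.inj h).1.symm

theorem ok_card {s : ℕ} {l : Finset Lab} (h : ok s l) : l.card ≤ 2 := by
  have h2 : ∀ a ∈ l, ∀ b ∈ l, lo a ≤ hi b := fun a ha b hb =>
    ((Finset.le_sup (f := lo) ha).trans (le_max_right _ _)).trans (h.2 b hb)
  clear h
  revert l
  decide

theorem filter_ok (s m : ℕ) :
    (univ.filter fun l => ok s l ∧ l.card ≤ m + 2) = univ.filter (ok s) :=
  filter_congr fun _ _ => ⟨fun h => h.1, fun h => ⟨h, (ok_card h).trans (by omega)⟩⟩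

theorem H1_one (ω : Finset Lab → ℝ) : H ω 1 1 = ω {am} + ω {ap} + ω {bp} + ω {bm} := by
  have : (univ.filter fun l => ok 1 l ∧ l.card ≤ 0 + 1) = {{am}, {ap}, {bp}, {bm}} := by decide
  rw [H_succ, this, sum_insert (by decide), sum_insert (by decide), sum_insert (by decide),
    sum_singleton]
  simp [H_zero]; ring

theorem H2_one (ω : Finset Lab → ℝ) : H ω 2 1 = ω {ap} + ω {bp} + ω {bm} := by
  have : (univ.filter fun l => ok 2 l ∧ l.card ≤ 0 + 1) = {{ap}, {bp}, {bm}} := by decide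
  rw [H_succ, this, sum_insert (by decide), sum_insert (by decide), sum_singleton]
  simp [H_zero]; ring

theorem H3_one (ω : Finset Lab → ℝ) : H ω 3 1 = ω {ap} + ω {bm} := by
  have : (univ.filter fun l => ok 3 l ∧ l.card ≤ 0 + 1) = {{ap}, {bm}} := by decide
  rw [H_succ, this, sum_insert (by decide), sum_singleton]
  simp [H_zero]

theorem H1_rec (ω : Finset Lab → ℝ) (m : ℕ) : H ω 1 (m + 2) =
    (ω {am} + ω {bp}) * H ω 1 (m + 1) + ω {am, bp} * H ω 1 m + ω {ap} * H ω 2 (m + 1) +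
      ω {ap, bp} * H ω 2 m + ω {bm} * H ω 3 (m + 1) + ω {ap, bm} * H ω 3 m := by
  have : univ.filter (ok 1) = {{am}, {bp}, {am, bp}, {ap}, {ap, bp}, {bm}, {ap, bm}} := by decide
  rw [H_succ, filter_ok, this, sum_insert (by decide), sum_insert (by decide),
    sum_insert (by decide), sum_insert (by decide), sum_insert (by decide), sum_insert (by decide),
    sum_singleton]
  change ω {am} * H ω 1 (m + 1) + (ω {bp} * H ω 1 (m + 1) + (ω {am, bp} * H ω 1 m +
    (ω {ap} * H ω 2 (m + 1) + (ω {ap, bp} * H ω 2 m + (ω {bm} * H ω 3 (m + 1) +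
      ω {ap, bm} * H ω 3 m))))) = _
  ring

theorem H2_rec (ω : Finset Lab → ℝ) (m : ℕ) : H ω 2 (m + 2) =
    (ω {ap} + ω {bp}) * H ω 2 (m + 1) + ω {ap, bp} * H ω 2 m +
      ω {bm} * H ω 3 (m + 1) + ω {ap, bm} * H ω 3 m := by
  have : univ.filter (ok 2) = {{bp}, {ap}, {ap, bp}, {bm}, {ap, bm}} := by decide
  rw [H_succ, filter_ok, this, sum_insert (by decide), sum_insert (by decide),
    sum_insert (by decide), sum_insert (by decide), sum_singleton]
  change ω {bp} * H ω 2 (m + 1) + (ω {ap} * H ω 2 (m + 1) + (ω {ap, bp} * H ω 2 m +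
    (ω {bm} * H ω 3 (m + 1) + ω {ap, bm} * H ω 3 m))) = _
  ring

theorem H3_rec (ω : Finset Lab → ℝ) (m : ℕ) : H ω 3 (m + 2) =
    (ω {ap} + ω {bm}) * H ω 3 (m + 1) + ω {ap, bm} * H ω 3 m := by
  have : univ.filter (ok 3) = {{ap}, {bm}, {ap, bm}} := by decide
  rw [H_succ, filter_ok, this, sum_insert (by decide), sum_insert (by decide), sum_singleton]
  change ω {ap} * H ω 3 (m + 1) + (ω {bm} * H ω 3 (m + 1) + ω {ap, bm} * H ω 3 m) = _
  ring

/-- Pell numbers as reals -/
noncomputable def pell (m : ℕ) : ℝ := ((1 + √2) ^ m - (1 - √2) ^ m) / (2 * √2)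

theorem pell_zero : pell 0 = 0 := by simp [pell]

theorem pell_one : pell 1 = 1 := by
  unfold pell
  rw [div_eq_one_iff_eq (by positivity)]
  ring

theorem pell_rec (m : ℕ) : pell (m + 2) = 2 * pell (m + 1) + pell m := by
  have h : √2 ^ 2 = 2 := Real.sq_sqrt (by norm_num)
  unfold pell
  rw [← mul_div_assoc, ← add_div]
  congr 1
  linear_combination ((1 + √2) ^ m - (1 - √2) ^ m) * h

theorem two_step {p : ℕ → Prop} (h0 : p 0) (h1 : p 1) (h : ∀ m, p m → p (m + 1) → p (m + 2)) :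
    ∀ m, p m := by
  have : ∀ m, p m ∧ p (m + 1) := by
    intro m
    induction m with
    | zero => exact ⟨h0, h1⟩
    | succ m ih => exact ⟨ih.2, h m ih.1 ih.2⟩
  exact fun m => (this m).1

theorem t3_eq : ∀ m, H (fun _ => 1) 3 m = pell (m + 1) := by
  refine two_step ?_ ?_ fun m h1 h2 => ?_
  · rw [H_zero, pell_one]
  · rw [H3_one, pell_rec, pell_one, pell_zero]; norm_num
  · rw [H3_rec, h1, h2, pell_rec (m + 1)]; ring

theorem t2_eq : ∀ m, H (fun _ => 1) 2 m = (1 + m / 2) * pell (m + 1) := by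
  refine two_step ?_ ?_ fun m h1 h2 => ?_
  · rw [H_zero, pell_one]; norm_num
  · rw [H2_one, pell_rec, pell_one, pell_zero]; norm_num
  · rw [H2_rec, h1, h2, t3_eq, t3_eq, pell_rec (m + 1)]
    push_cast
    rw [pell_rec m]
    ring

theorem t1_eq : ∀ m, H (fun _ => 1) 1 m =
    (1 + 13 * m / 16 + m ^ 2 / 8) * pell (m + 1) + (1 / 16 + m / 16) * pell m := by
  refine two_step ?_ ?_ fun m h1 h2 => ?_
  · rw [H_zero, pell_one, pell_zero]; norm_num
  · rw [H1_one, pell_rec, pell_one, pell_zero]; norm_num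
  · rw [H1_rec, h1, h2, t2_eq, t2_eq, t3_eq, t3_eq, pell_rec (m + 1)]
    push_cast
    rw [pell_rec m]
    ring

theorem card_V (s m : ℕ) : ((V s m).card : ℝ) = H (fun _ => 1) s m := by simp [H]

theorem H_nonneg {ω : Finset Lab → ℝ} (h : ∀ l, 0 ≤ ω l) (s m : ℕ) : 0 ≤ H ω s m :=
  sum_nonneg fun w _ => List.prod_nonneg fun x hx => by
    obtain ⟨l, -, rfl⟩ := List.mem_map.1 hx
    exact h l

theorem H_geom {ω : Finset Lab → ℝ} (h : ∀ l, 0 ≤ ω l)
    (b : ω {am} + ω {ap} + ω {bp} + ω {bm} ≤ 9) (b3 : ω {ap} + ω {bm} ≤ 9 / 4)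
    (r3 : (ω {ap} + ω {bm}) * (9 / 4) + ω {ap, bm} ≤ 81 / 16)
    (r2 : ((ω {ap} + ω {bp}) * (9 / 4) + ω {ap, bp}) * 4 + (ω {bm} * (9 / 4) + ω {ap, bm}) ≤
      81 / 16 * 4)
    (r1 : ((ω {am} + ω {bp}) * (9 / 4) + ω {am, bp}) * 20 + (ω {ap} * (9 / 4) + ω {ap, bp}) * 4 +
      (ω {bm} * (9 / 4) + ω {ap, bm}) ≤ 81 / 16 * 20) (m : ℕ) :
    H ω 1 m ≤ 20 * (9 / 4) ^ m := by
  have key : ∀ m, H ω 3 m ≤ (9 / 4) ^ m ∧ H ω 2 m ≤ 4 * (9 / 4) ^ m ∧
      H ω 1 m ≤ 20 * (9 / 4) ^ m := by
    refine two_step ?_ ?_ fun m h1 h2 => ?_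
    · simp only [H_zero]; norm_num
    · rw [H1_one, H2_one, H3_one]
      have := h {am}
      refine ⟨by linarith, by linarith, by linarith⟩
    · obtain ⟨a3, a2, a1⟩ := h1
      obtain ⟨c3, c2, c1⟩ := h2
      have hx : (0 : ℝ) < (9 / 4) ^ m := by positivity
      rw [pow_succ] at c3 c2 c1
      rw [H1_rec, H2_rec, H3_rec, pow_succ, pow_succ]
      set x : ℝ := (9 / 4) ^ m
      have e1 := mul_le_mul_of_nonneg_left c3 (h {ap})
      have e2 := mul_le_mul_of_nonneg_left c3 (h {bm})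
      have e3 := mul_le_mul_of_nonneg_left a3 (h {ap, bm})
      have e4 := mul_le_mul_of_nonneg_left c2 (h {ap})
      have e5 := mul_le_mul_of_nonneg_left c2 (h {bp})
      have e6 := mul_le_mul_of_nonneg_left a2 (h {ap, bp})
      have e7 := mul_le_mul_of_nonneg_left c1 (h {am})
      have e8 := mul_le_mul_of_nonneg_left c1 (h {bp})
      have e9 := mul_le_mul_of_nonneg_left a1 (h {am, bp})
      have f3 := mul_le_mul_of_nonneg_right r3 hx.le
      have f2 := mul_le_mul_of_nonneg_right r2 hx.le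
      have f1 := mul_le_mul_of_nonneg_right r1 hx.le
      refine ⟨by nlinarith, by nlinarith, by nlinarith⟩
  exact (key m).2.2

theorem prod_ite (p : Finset Lab → Prop) [DecidablePred p] (c : ℝ) (w : List (Finset Lab)) :
    (w.map fun l => if p l then c else 1).prod = c ^ w.countP p := by
  induction w with
  | nil => simp
  | cons l w ih =>
    rw [List.map_cons, List.prod_cons, ih, List.countP_cons]
    by_cases h : p l
    · simp [h, pow_succ, mul_comm]
    · simp [h]

/-- words all of whose letters are single points -/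
noncomputable def E (m : ℕ) : Finset (List (Finset Lab)) :=
  (V 1 m).filter fun w => ∀ l ∈ w, l.card = 1

theorem card_E (m : ℕ) : ((E m).card : ℝ) ≤ 20 * (9 / 4) ^ m := by
  have h := H_geom (ω := fun l => if l.card ≠ 1 then 0 else 1)
    (fun l => by split_ifs <;> norm_num) (by norm_num) (by norm_num)
    (by rw [if_pos (c := ({ap, bm} : Finset Lab).card ≠ 1) (by decide)]; norm_num)
    (by
      rw [if_pos (c := ({ap, bm} : Finset Lab).card ≠ 1) (by decide),
        if_pos (c := ({ap, bp} : Finset Lab).card ≠ 1) (by decide)]; norm_num)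
    (by
      rw [if_pos (c := ({ap, bm} : Finset Lab).card ≠ 1) (by decide),
        if_pos (c := ({ap, bp} : Finset Lab).card ≠ 1) (by decide),
        if_pos (c := ({am, bp} : Finset Lab).card ≠ 1) (by decide)]; norm_num) m
  refine le_trans ?_ h
  unfold E H
  rw [card_filter, Nat.cast_sum]
  refine sum_le_sum fun w _ => ?_
  rw [prod_ite (fun l => l.card ≠ 1)]
  split_ifs with hw
  · rw [List.countP_eq_zero.2 (by simpa using hw)]; simp
  · simp

/-- non-degenerate words -/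
def NonDeg (w : List (Finset Lab)) : Prop :=
  4 ≤ w.countP (fun l => am ∈ l ∨ ap ∈ l) ∧ 4 ≤ w.countP (fun l => bp ∈ l ∨ bm ∈ l) ∧
    (∃ l ∈ w, am ∈ l) ∧ ∃ l ∈ w, bm ∈ l

open Classical in
/-- non-degenerate valid words -/
noncomputable def N (m : ℕ) : Finset (List (Finset Lab)) := (V 1 m).filter NonDeg

theorem H_noam : ∀ m, H (fun l => if am ∈ l then 0 else 1) 1 m = H (fun _ => 1) 2 m := by
  have h3 : ∀ m, H (fun l => if am ∈ l then 0 else 1) 3 m = H (fun _ => 1) 3 m := by
    refine two_step ?_ ?_ fun m h1 h2 => ?_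
    · simp [H_zero]
    · simp [H3_one]
    · rw [H3_rec, H3_rec, h1, h2]; simp
  have h2 : ∀ m, H (fun l => if am ∈ l then 0 else 1) 2 m = H (fun _ => 1) 2 m := by
    refine two_step ?_ ?_ fun m h1 h2 => ?_
    · simp [H_zero]
    · simp [H2_one]
    · rw [H2_rec, H2_rec, h1, h2, h3, h3]; simp
  refine two_step ?_ ?_ fun m k1 k2 => ?_
  · simp [H_zero]
  · simp [H1_one, H2_one]
  · rw [H1_rec, H2_rec, k1, k2, h2, h2, h3, h3]; simp; ring

theorem H_nobm : ∀ m, H (fun l => if bm ∈ l then 0 else 1) 1 m = H (fun _ => 1) 2 m := by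
  have h2 : ∀ m, H (fun l => if bm ∈ l then 0 else 1) 2 m = H (fun _ => 1) 3 m := by
    refine two_step ?_ ?_ fun m h1 h2 => ?_
    · simp [H_zero]
    · simp [H2_one, H3_one]
    · rw [H2_rec, H3_rec (fun _ => 1), h1, h2]; simp
  refine two_step ?_ ?_ fun m k1 k2 => ?_
  · simp [H_zero]
  · simp [H1_one, H2_one]
  · rw [H1_rec, H2_rec (fun _ => 1), k1, k2, h2, h2]; simp

theorem card_N (m : ℕ) : H (fun _ => 1) 1 m ≤
    (N m).card + 2 * H (fun _ => 1) 2 m + 320 * (9 / 4) ^ m := by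
  classical
  have hA := H_geom (ω := fun l => if am ∈ l ∨ ap ∈ l then 1 / 2 else 1)
    (fun l => by split_ifs <;> norm_num) (by simp; norm_num) (by simp; norm_num)
    (by simp; norm_num) (by simp; norm_num) (by simp; norm_num) m
  have hB := H_geom (ω := fun l => if bp ∈ l ∨ bm ∈ l then 1 / 2 else 1)
    (fun l => by split_ifs <;> norm_num) (by simp; norm_num) (by simp; norm_num)
    (by simp; norm_num) (by simp; norm_num) (by simp; norm_num) m
  have key : H (fun _ => 1) 1 m ≤ (N m).card + (H (fun l => if am ∈ l then 0 else 1) 1 m +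
      H (fun l => if bm ∈ l then 0 else 1) 1 m +
      8 * H (fun l => if am ∈ l ∨ ap ∈ l then 1 / 2 else 1) 1 m +
      8 * H (fun l => if bp ∈ l ∨ bm ∈ l then 1 / 2 else 1) 1 m) := by
    unfold N H
    rw [card_filter, Nat.cast_sum, mul_sum, mul_sum, ← sum_add_distrib, ← sum_add_distrib,
      ← sum_add_distrib, ← sum_add_distrib]
    refine sum_le_sum fun w _ => ?_
    rw [prod_ite (fun l => am ∈ l), prod_ite (fun l => bm ∈ l),
      prod_ite (fun l => am ∈ l ∨ ap ∈ l), prod_ite (fun l => bp ∈ l ∨ bm ∈ l)]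
    have p1 : (0 : ℝ) ≤ 0 ^ w.countP (fun l => am ∈ l) := by positivity
    have p2 : (0 : ℝ) ≤ 0 ^ w.countP (fun l => bm ∈ l) := by positivity
    have p3 : (0 : ℝ) ≤ (1 / 2) ^ w.countP (fun l => am ∈ l ∨ ap ∈ l) := by positivity
    have p4 : (0 : ℝ) ≤ (1 / 2) ^ w.countP (fun l => bp ∈ l ∨ bm ∈ l) := by positivity
    have half : ∀ k : ℕ, ¬ 4 ≤ k → (1 : ℝ) / 8 ≤ (1 / 2) ^ k := fun k hk =>
      le_trans (by norm_num) (pow_le_pow_of_le_one (n := 3) (by norm_num) (by norm_num) (by omega))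
    have one : (w.map fun _ => (1 : ℝ)).prod = 1 := by simp
    rw [one]
    split_ifs with hw
    · push_cast; linarith
    · push_cast
      unfold NonDeg at hw
      rw [not_and_or, not_and_or, not_and_or] at hw
      rcases hw with hw | hw | hw | hw
      · have := half _ hw; linarith
      · have := half _ hw; linarith
      · have : w.countP (fun l => am ∈ l) = 0 := List.countP_eq_zero.2 (by simpa using hw)
        rw [this, pow_zero]; linarith
      · have : w.countP (fun l => bm ∈ l) = 0 := List.countP_eq_zero.2 (by simpa using hw)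
        rw [this, pow_zero]; linarith
  rw [H_noam, H_nobm] at key
  linarith

end Pool.Agent.P.MP_639dfe_co
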