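import Mathlib

namespace Pool.Agent.P.MP_639dfe_co

/-- Orientation of an ordered triple of points of the plane: `1` counterclockwise,
`-1` clockwise, `0` collinear. -/
noncomputable def orient (a b c : ℝ × ℝ) : SignType :=
  SignType.sign ((b.1 - a.1) * (c.2 - a.2) - (b.2 - a.2) * (c.1 - a.1))

/-- `P` and `Q` represent the same configuration (have the same order type). -/
def SameType (P Q : Finset (ℝ × ℝ)) : Prop :=
  ∃ f : P ≃ Q, ∀ a b c : P, orient (f a) (f b) (f c) = orient a b c

/-- The configuration of `T` is a subconfiguration of the configuration of `S`. -/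
def IsSubconfig (T S : Finset (ℝ × ℝ)) : Prop :=
  ∃ R ⊆ S, SameType T R

/-- No three points of `P` are collinear. -/
def GenPos (P : Finset (ℝ × ℝ)) : Prop :=
  ∀ a ∈ P, ∀ b ∈ P, ∀ c ∈ P, a ≠ b → a ≠ c → b ≠ c → ¬ Collinear ℝ {a, b, c}

/-- `mg(S) < k`: every subset of `S` in general position has fewer than `k` points. -/
def InClass (k : ℕ) (S : Finset (ℝ × ℝ)) : Prop :=
  ∀ R ⊆ S, GenPos R → R.card < k

end Pool.Agent.P.MP_639dfe_co
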