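import Pool.Agent.P.MP_639dfe_co.Defs

namespace Pool.Agent.P.MP_639dfe_co

/-- `c_k(n)`: the number of configurations (classes of point sets with the same order type) of
size `n` with `mg < k`. -/
noncomputable def numConfig (k n : ℕ) : ℕ :=
  Set.ncard {C : Set (Finset (ℝ × ℝ)) |
    ∃ P : Finset (ℝ × ℝ), P.card = n ∧ InClass k P ∧ C = {Q | SameType P Q}}

end Pool.Agent.P.MP_639dfe_co
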