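import Pool.Agent.P.MP_639dfe_co.Realize
import Pool.Agent.P.MP_639dfe_co.DefsCount

namespace Pool.Agent.P.MP_639dfe_co

open Finset Filter Topology

/-- the set of configurations counted by `numConfig 6 n` -/
def classes (n : ℕ) : Set (Set (Finset (ℝ × ℝ))) :=
  {C | ∃ P : Finset (ℝ × ℝ), P.card = n ∧ InClass 6 P ∧ C = {Q | SameType P Q}}

/-- the configuration with a given code -/
def cls (o m : Prop) (w : List (Finset Lab)) : Set (Finset (ℝ × ℝ)) :=
  {Q | ∃ S q F G κ, Normal S q F G κ ∧ word S F G κ = w ∧ (HasO S F G ↔ o) ∧ (q ∈ S ↔ m) ∧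
    SameType S Q}

theorem cls_eq {S : Finset (ℝ × ℝ)} {q : ℝ × ℝ} {F G κ : ℝ × ℝ → ℝ} (h : Normal S q F G κ)
    {o m : Prop} (ho : HasO S F G ↔ o) (hm : q ∈ S ↔ m) :
    {Q | SameType S Q} = cls o m (word S F G κ) := by
  ext Q
  constructor
  · exact fun hQ => ⟨S, q, F, G, κ, h, rfl, ho, hm, hQ⟩
  · rintro ⟨S', q', F', G', κ', h', hw, ho', hm', hQ⟩
    exact (sameType_of_code h h' hw.symm (ho.trans ho'.symm) (hm.trans hm'.symm)).trans hQ

theorem classes_subset {n : ℕ} (hn : 430 < n + 2) :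
    classes (n + 2) ⊆ (cls False True '' V 1 (n + 1) ∪ cls True True '' V 1 n) ∪
      (cls False False '' E (n + 2) ∪ cls True False '' E (n + 1)) := by
  classical
  rintro C ⟨P, hP, hc, rfl⟩
  obtain ⟨q, hq⟩ := exists_twoLines hc (hP ▸ hn)
  by_cases hqP : q ∈ P
  · obtain ⟨F, G, κ, h⟩ := exists_normal hq
    have e := h.card_eq
    rw [if_pos hqP, hP] at e
    by_cases ho : HasO P F G
    · rw [if_pos ho] at e
      exact Or.inl (Or.inr ⟨_, mem_coe.2 (mem_V.2 ⟨h.val_word, by omega⟩),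
        (cls_eq h (iff_true_intro ho) (iff_true_intro hqP)).symm⟩)
    · rw [if_neg ho] at e
      exact Or.inl (Or.inl ⟨_, mem_coe.2 (mem_V.2 ⟨h.val_word, by omega⟩),
        (cls_eq h (iff_false_intro ho) (iff_true_intro hqP)).symm⟩)
  · obtain ⟨r, hr, hq', hg⟩ := hq.generic hqP
    obtain ⟨F, G, κ, h⟩ := exists_normal hq'
    have e := h.card_eq
    rw [if_neg hr, hP] at e
    by_cases ho : HasO P F G
    · rw [if_pos ho] at e
      exact Or.inr (Or.inr ⟨_, mem_coe.2 (mem_filter.2 ⟨mem_V.2 ⟨h.val_word, by omega⟩,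
        h.single hg⟩), (cls_eq h (iff_true_intro ho) (iff_false_intro hr)).symm⟩)
    · rw [if_neg ho] at e
      exact Or.inr (Or.inl ⟨_, mem_coe.2 (mem_filter.2 ⟨mem_V.2 ⟨h.val_word, by omega⟩,
        h.single hg⟩), (cls_eq h (iff_false_intro ho) (iff_false_intro hr)).symm⟩)

theorem classes_finite {n : ℕ} (hn : 430 < n + 2) : (classes (n + 2)).Finite :=
  ((((V 1 (n + 1)).finite_toSet.image _).union ((V 1 n).finite_toSet.image _)).union
    (((E (n + 2)).finite_toSet.image _).union ((E (n + 1)).finite_toSet.image _))).subset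
    (classes_subset hn)

theorem ncard_image_le_card {α β : Type} (f : α → β) (s : Finset α) :
    (f '' s).ncard ≤ s.card := by
  rw [← Set.ncard_coe_finset]
  exact Set.ncard_image_le s.finite_toSet

theorem upper {n : ℕ} (hn : 430 < n + 2) : numConfig 6 (n + 2) ≤
    (V 1 (n + 1)).card + (V 1 n).card + ((E (n + 2)).card + (E (n + 1)).card) := by
  refine (Set.ncard_le_ncard (classes_subset hn)
    ((((V 1 (n + 1)).finite_toSet.image _).union ((V 1 n).finite_toSet.image _)).union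
    (((E (n + 2)).finite_toSet.image _).union ((E (n + 1)).finite_toSet.image _)))).trans ?_
  refine (Set.ncard_union_le _ _).trans (Nat.add_le_add ?_ ?_) <;>
    exact (Set.ncard_union_le _ _).trans
      (Nat.add_le_add (ncard_image_le_card _ _) (ncard_image_le_card _ _))

theorem lower {n : ℕ} (hn : 430 < n + 2) :
    (N (n + 1)).card + (N n).card ≤ numConfig 6 (n + 2) := by
  classical
  have hdis : Disjoint (N (n + 1)) (N n) := by
    rw [disjoint_left]
    intro w h1 h2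
    have e1 := (mem_V.1 (mem_filter.1 h1).1).2
    have e2 := (mem_V.1 (mem_filter.1 h2).1).2
    omega
  have hN : ∀ w ∈ N (n + 1) ∪ N n, Val 1 w ∧ (wt w = n + 1 ∨ wt w = n) ∧ NonDeg w := by
    intro w hw
    rcases mem_union.1 hw with h | h
    · exact ⟨(mem_V.1 (mem_filter.1 h).1).1, Or.inl (mem_V.1 (mem_filter.1 h).1).2,
        (mem_filter.1 h).2⟩
    · exact ⟨(mem_V.1 (mem_filter.1 h).1).1, Or.inr (mem_V.1 (mem_filter.1 h).1).2,
        (mem_filter.1 h).2⟩
  rw [← card_union_of_disjoint hdis, ← Set.ncard_coe_finset]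
  refine Set.ncard_le_ncard_of_injOn (fun w => cls (wt w = n) True w) ?_ ?_ (classes_finite hn)
  · intro w hw
    obtain ⟨h1, h2, -⟩ := hN w hw
    obtain ⟨S, q, F, G, κ, h, hq, rfl, ho⟩ := exists_model w h1 (wt w = n)
    refine ⟨S, ?_, h.inClass, (cls_eq h ho (iff_true_intro hq)).symm⟩
    rw [h.card_eq, if_pos hq]
    rcases h2 with h2 | h2
    · rw [if_neg (fun e => by have := ho.1 e; omega), h2]
    · rw [if_pos (ho.2 h2), h2]
  · intro w hw w' hw' e
    obtain ⟨h1, -, h3⟩ := hN w hw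
    obtain ⟨S, q, F, G, κ, h, hq, rfl, ho⟩ := exists_model w h1 (wt w = n)
    have hS : S ∈ cls (wt (word S F G κ) = n) True (word S F G κ) :=
      ⟨S, q, F, G, κ, h, rfl, ho, iff_true_intro hq, SameType.refl S⟩
    simp only at e
    rw [e] at hS
    obtain ⟨S', q', F', G', κ', h', rfl, -, hq', hs⟩ := hS
    exact code_of_sameType h h' hq (hq'.2 trivial) hs.symm h3

theorem sqrt2_bounds : (1.4 : ℝ) < √2 ∧ √2 < 1.5 :=
  ⟨Real.lt_sqrt_of_sq_lt (by norm_num), (Real.sqrt_lt' (by norm_num)).2 (by norm_num)⟩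

theorem tendsto_pell (k : ℕ) : Tendsto (fun n : ℕ => pell (n + k) / (1 + √2) ^ (n + 2)) atTop
    (𝓝 ((1 + √2) ^ k / (1 + √2) ^ 2 / (2 * √2))) := by
  obtain ⟨s1, s2⟩ := sqrt2_bounds
  have h0 : Tendsto (fun n : ℕ => ((1 - √2) / (1 + √2)) ^ n) atTop (𝓝 0) := by
    refine tendsto_pow_atTop_nhds_zero_of_abs_lt_one ?_
    rw [abs_div, div_lt_one (abs_pos.2 (by linarith)), abs_of_pos (by linarith : 0 < 1 + √2),
      abs_lt]
    constructor <;> linarith
  have h1 := (((h0.mul_const ((1 - √2) ^ k)).const_sub ((1 + √2) ^ k)).div_const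
    ((1 + √2) ^ 2)).div_const (2 * √2)
  rw [zero_mul, sub_zero] at h1
  refine h1.congr fun n => ?_
  unfold pell
  have : (1 + √2) ≠ 0 := by linarith
  have : √2 ≠ 0 := by linarith
  rw [div_pow]
  field_simp
  ring

theorem tendsto_quad (a b c : ℝ) : Tendsto
    (fun n : ℕ => (a * (n : ℝ) ^ 2 + b * n + c) / ((n : ℝ) + 2) ^ 2) atTop (𝓝 a) := by
  have h0 : Tendsto (fun n : ℕ => ((n : ℝ) + 2)⁻¹) atTop (𝓝 0) :=
    tendsto_inv_atTop_zero.comp (tendsto_atTop_add_const_right _ _ tendsto_natCast_atTop_atTop)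
  have h1 := ((h0.const_mul (b - 4 * a)).const_add a).add
    ((h0.pow 2).const_mul (4 * a - 2 * b + c))
  simp only [mul_zero, add_zero, ne_eq, OfNat.ofNat_ne_zero, not_false_eq_true, zero_pow] at h1
  refine h1.congr fun n => ?_
  have : (n : ℝ) + 2 ≠ 0 := by positivity
  field_simp
  ring

theorem tendsto_term (a b c : ℝ) (k : ℕ) : Tendsto
    (fun n : ℕ => (a * (n : ℝ) ^ 2 + b * n + c) * pell (n + k) /
      (((n : ℝ) + 2) ^ 2 * (1 + √2) ^ (n + 2))) atTop
    (𝓝 (a * ((1 + √2) ^ k / (1 + √2) ^ 2 / (2 * √2)))) :=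
  ((tendsto_quad a b c).mul (tendsto_pell k)).congr fun _ => (mul_div_mul_comm _ _ _ _).symm

theorem tendsto_geom (c : ℝ) : Tendsto
    (fun n : ℕ => c * (9 / 4) ^ n / (((n : ℝ) + 2) ^ 2 * (1 + √2) ^ (n + 2))) atTop (𝓝 0) := by
  obtain ⟨s1, s2⟩ := sqrt2_bounds
  have h0 : Tendsto (fun n : ℕ => ((9 / 4) / (1 + √2)) ^ n) atTop (𝓝 0) := by
    refine tendsto_pow_atTop_nhds_zero_of_lt_one (by positivity) ?_
    rw [div_lt_one (by linarith)]
    linarith
  have h1 := (tendsto_quad 0 0 c).mul (h0.div_const ((1 + √2) ^ 2))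
  rw [zero_mul] at h1
  refine h1.congr fun n => ?_
  have : (1 + √2) ≠ 0 := by linarith
  have : (n : ℝ) + 2 ≠ 0 := by positivity
  rw [div_pow]
  field_simp
  ring

theorem tendsto_main : Tendsto
    (fun n : ℕ => (H (fun _ => 1) 1 (n + 1) + H (fun _ => 1) 1 n) /
      (((n : ℝ) + 2) ^ 2 * (1 + √2) ^ (n + 2))) atTop (𝓝 (1 / 16)) := by
  obtain ⟨s1, s2⟩ := sqrt2_bounds
  have hs : √2 ^ 2 = 2 := Real.sq_sqrt (by norm_num)
  have h := ((tendsto_term (1 / 8) (17 / 16) (31 / 16) 2).add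
    (tendsto_term (1 / 8) (14 / 16) (18 / 16) 1)).add (tendsto_term 0 (1 / 16) (1 / 16) 0)
  have e : 1 / 8 * ((1 + √2) ^ 2 / (1 + √2) ^ 2 / (2 * √2)) +
      1 / 8 * ((1 + √2) ^ 1 / (1 + √2) ^ 2 / (2 * √2)) +
      0 * ((1 + √2) ^ 0 / (1 + √2) ^ 2 / (2 * √2)) = 1 / 16 := by
    have : (1 + √2) ≠ 0 := by linarith
    have : √2 ≠ 0 := by linarith
    generalize √2 = s at *
    field_simp
    linear_combination (-16 - 16 * s : ℝ) * hs
  rw [e] at h
  refine h.congr fun n => ?_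
  rw [t1_eq, t1_eq, ← add_div, ← add_div]
  congr 1
  push_cast
  simp only [add_zero, add_assoc, Nat.reduceAdd]
  ring

theorem tendsto_t2 : Tendsto
    (fun n : ℕ => (2 * H (fun _ => 1) 2 (n + 1) + 2 * H (fun _ => 1) 2 n) /
      (((n : ℝ) + 2) ^ 2 * (1 + √2) ^ (n + 2))) atTop (𝓝 0) := by
  have h := (tendsto_term 0 1 3 2).add (tendsto_term 0 1 2 1)
  rw [zero_mul, zero_mul, add_zero] at h
  refine h.congr fun n => ?_
  rw [t2_eq, t2_eq, ← add_div]
  congr 1
  push_cast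
  simp only [add_assoc, Nat.reduceAdd]
  ring

theorem growth : Tendsto (fun n : ℕ => (numConfig 6 n : ℝ) / ((n : ℝ) ^ 2 * (1 + √2) ^ n))
    atTop (𝓝 (1 / 16)) := by
  rw [← tendsto_add_atTop_iff_nat 2]
  have hu := tendsto_main.add (tendsto_geom (20 * (9 / 4) ^ 2 + 20 * (9 / 4)))
  have hl := (tendsto_main.sub tendsto_t2).sub (tendsto_geom (320 * (9 / 4) + 320))
  rw [add_zero] at hu
  rw [sub_zero, sub_zero] at hl
  refine tendsto_of_tendsto_of_tendsto_of_le_of_le' hl hu ?_ ?_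
  · filter_upwards [eventually_gt_atTop 430] with n hn
    have h1 : (((N (n + 1)).card + (N n).card : ℕ) : ℝ) ≤ numConfig 6 (n + 2) :=
      Nat.cast_le.2 (lower (by omega))
    have h2 := card_N n
    have h3 := card_N (n + 1)
    rw [← sub_div, ← sub_div]
    push_cast at h1 ⊢
    refine div_le_div_of_nonneg_right ?_ (by positivity)
    rw [pow_succ] at h3
    linarith
  · filter_upwards [eventually_gt_atTop 430] with n hn
    have h1 : (numConfig 6 (n + 2) : ℝ) ≤ (((V 1 (n + 1)).card + (V 1 n).card +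
        ((E (n + 2)).card + (E (n + 1)).card) : ℕ) : ℝ) := Nat.cast_le.2 (upper (by omega))
    have h2 := card_E (n + 1)
    have h3 := card_E (n + 2)
    rw [← add_div]
    push_cast at h1 ⊢
    rw [card_V, card_V] at h1
    refine div_le_div_of_nonneg_right ?_ (by positivity)
    rw [pow_add] at h2 h3
    linarith

end Pool.Agent.P.MP_639dfe_co
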