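import Pool.Agent.P.MP_639dfe_co.Wqo
import Pool.Agent.P.MP_639dfe_co.Count

namespace Pool.Agent.P.MP_639dfe_co

open Finset SignType Lab

/-- normal form of a set lying in two lines and a point -/
structure Normal (S : Finset (ℝ × ℝ)) (q : ℝ × ℝ) (F G κ : ℝ × ℝ → ℝ) : Prop where
  hF : IsAff F
  hG : IsAff G
  Fq : F q = 1
  Gq : G q = 1
  cover : ∀ x ∈ S, x = q ∨ F x = 0 ∨ G x = 0
  key : ∀ x ∈ S, ∀ y ∈ S, F x ≠ G x → F y ≠ G y →
    sign (D q x y) = sign (F x - G x) * sign (F y - G y) * sign (κ y - κ x)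
  keyO : ∀ x ∈ S, ∀ y ∈ S, F x = 0 → G x = 0 → sign (D q x y) = sign (F y - G y)
  v1 : ∀ x ∈ S, ∀ y ∈ S, F x = 0 → 0 < G x → F y = 0 → G y < 0 → κ y < κ x
  v2 : ∀ x ∈ S, ∀ y ∈ S, G x = 0 → F x < 0 → F y = 0 → G y < 0 → κ y < κ x
  v3 : ∀ x ∈ S, ∀ y ∈ S, G x = 0 → F x < 0 → G y = 0 → 0 < F y → κ y < κ x

theorem normal_core {S : Finset (ℝ × ℝ)} {q : ℝ × ℝ} {F G : ℝ × ℝ → ℝ} {α β γ α' β' γ' : ℝ}
    (hF : ∀ x, F x = α * x.1 + β * x.2 + γ) (hG : ∀ x, G x = α' * x.1 + β' * x.2 + γ')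
    (Fq : F q = 1) (Gq : G q = 1) (cover : ∀ x ∈ S, x = q ∨ F x = 0 ∨ G x = 0)
    (hN : 0 < (α - α') ^ 2 + (β - β') ^ 2) (hR : 0 ≤ α * β' - β * α') :
    ∃ κ, Normal S q F G κ := by
  set n := (α - α') ^ 2 + (β - β') ^ 2 with hn
  set h : ℝ × ℝ → ℝ := fun x => -(β - β') * (x.1 - q.1) + (α - α') * (x.2 - q.2) with hh
  set P := (α * (α - α') + β * (β - β')) / n with hP
  set R := (α * β' - β * α') / n with hRdef
  have R0 : 0 ≤ R := div_nonneg hR hN.le
  have hg : ∀ x, F x - G x = (α - α') * (x.1 - q.1) + (β - β') * (x.2 - q.2) := by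
    intro x
    rw [hF] at Fq
    rw [hG] at Gq
    rw [hF, hG]
    linear_combination Fq - Gq
  have hFe : ∀ x, F x = 1 + P * (F x - G x) + R * h x := by
    intro x
    rw [hg x, hF x]
    rw [hF] at Fq
    simp only [hP, hRdef, hh]
    field_simp
    simp only [hn]
    linear_combination ((α - α') ^ 2 + (β - β') ^ 2) * Fq
  have hD : ∀ x y, n * D q x y = (F x - G x) * h y - h x * (F y - G y) := by
    intro x y
    rw [hg, hg]
    simp only [hn, hh, D]
    ring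
  have sn : ∀ z : ℝ, sign (n * z) = sign z := fun z => by rw [sign_mul, sign_pos hN, one_mul]
  have onF : ∀ x, F x = 0 → G x ≠ 0 → G x * (P + R * (h x / (F x - G x))) = 1 := by
    intro x h1 h2
    have := hFe x
    rw [h1] at this ⊢
    have e : ∀ a p r c : ℝ, a ≠ 0 → a * (p + r * (c / (0 - a))) = a * p - r * c := by
      intro a p r c ha
      rw [zero_sub, div_neg]
      field_simp
      ring
    rw [e _ _ _ _ h2]
    linarith
  have onG : ∀ x, G x = 0 → F x ≠ 0 → F x * (P - 1 + R * (h x / (F x - G x))) = -1 := by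
    intro x h1 h2
    have := hFe x
    rw [h1] at this ⊢
    rw [sub_zero] at this ⊢
    field_simp
    linear_combination -this
  refine ⟨fun x => h x / (F x - G x), ⟨α, β, γ, hF⟩, ⟨α', β', γ', hG⟩, Fq, Gq, cover,
    ?_, ?_, ?_, ?_, ?_⟩
  · intro x _ y _ hx hy
    rw [← sn, hD, ← sign_mul, ← sign_mul]
    congr 1
    have key : ∀ a b c d : ℝ, a ≠ 0 → b ≠ 0 → a * b * (d / b - c / a) = a * d - c * b := by
      intro a b c d ha hb
      field_simp
    rw [key _ _ _ _ (sub_ne_zero.2 hx) (sub_ne_zero.2 hy)]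
  · intro x _ y _ h1 h2
    have e := hFe x
    rw [← sn, hD, h1, h2, sub_zero, zero_mul, zero_sub, ← neg_mul, sign_mul]
    rw [h1, h2] at e
    have : 0 < -h x := by
      by_contra hc
      have := mul_nonneg R0 (neg_nonpos.1 (not_lt.1 hc))
      linarith
    rw [sign_pos this, one_mul]
  · intro x _ y _ x1 x2 y1 y2
    have ex := onF x x1 x2.ne'
    have ey := onF y y1 y2.ne
    by_contra hc
    have h3 := mul_le_mul_of_nonneg_left (not_lt.1 hc) R0
    have a1 : 0 < P + R * (h x / (F x - G x)) := by nlinarith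
    have a2 : P + R * (h y / (F y - G y)) < 0 := by nlinarith
    linarith
  · intro x _ y _ x1 x2 y1 y2
    have ex := onG x x1 x2.ne
    have ey := onF y y1 y2.ne
    by_contra hc
    have h3 := mul_le_mul_of_nonneg_left (not_lt.1 hc) R0
    have a1 : 0 < P - 1 + R * (h x / (F x - G x)) := by nlinarith
    have a2 : P + R * (h y / (F y - G y)) < 0 := by nlinarith
    linarith
  · intro x _ y _ x1 x2 y1 y2
    have ex := onG x x1 x2.ne
    have ey := onG y y1 y2.ne'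
    by_contra hc
    have h3 := mul_le_mul_of_nonneg_left (not_lt.1 hc) R0
    have a1 : 0 < P - 1 + R * (h x / (F x - G x)) := by nlinarith
    have a2 : P - 1 + R * (h y / (F y - G y)) < 0 := by nlinarith
    linarith

theorem exists_normal {S : Finset (ℝ × ℝ)} {q : ℝ × ℝ} (h : TwoLines S q) :
    ∃ F G κ, Normal S q F G κ := by
  obtain ⟨F, G, ⟨α, β, γ, hF⟩, ⟨α', β', γ', hG⟩, Fq, Gq, cover⟩ := h
  by_cases hN : 0 < (α - α') ^ 2 + (β - β') ^ 2
  · rcases le_total 0 (α * β' - β * α') with hR | hR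
    · obtain ⟨κ, h⟩ := normal_core hF hG Fq Gq cover hN hR
      exact ⟨F, G, κ, h⟩
    · obtain ⟨κ, h⟩ := normal_core (S := S) hG hF Gq Fq (fun x hx => by
        rcases cover x hx with h | h | h
        exacts [Or.inl h, Or.inr (Or.inr h), Or.inr (Or.inl h)]) (by nlinarith) (by linarith)
      exact ⟨G, F, κ, h⟩
  have e1 : α = α' := by nlinarith [sq_nonneg (α - α'), sq_nonneg (β - β')]
  have e2 : β = β' := by nlinarith [sq_nonneg (α - α'), sq_nonneg (β - β')]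
  have hFG : ∀ x, G x = F x := by
    intro x
    rw [hF] at Fq
    rw [hG] at Gq
    rw [hF, hG, ← e1, ← e2]
    rw [← e1, ← e2] at Gq
    linarith
  by_cases hN2 : 0 < α ^ 2 + β ^ 2
  · obtain ⟨κ, h⟩ := normal_core (S := S) (G := fun x => 2 * F x - 1) (α' := 2 * α) (β' := 2 * β)
      (γ' := 2 * γ - 1) hF (fun x => by rw [hF]; ring) Fq (by rw [Fq]; norm_num)
      (fun x hx => by
        rcases cover x hx with h | h | h
        exacts [Or.inl h, Or.inr (Or.inl h), Or.inr (Or.inl (hFG x ▸ h))])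
      (by nlinarith) (by nlinarith)
    exact ⟨_, _, κ, h⟩
  have e3 : α = 0 := by nlinarith [sq_nonneg α, sq_nonneg β]
  have e4 : β = 0 := by nlinarith [sq_nonneg α, sq_nonneg β]
  have hF1 : ∀ x, F x = 1 := by
    intro x
    rw [hF, e3, e4] at Fq ⊢
    linarith
  refine ⟨F, G, fun _ => 0, ⟨α, β, γ, hF⟩, ⟨α', β', γ', hG⟩, Fq, Gq, cover, ?_, ?_, ?_, ?_, ?_⟩
  · intro x _ y _ h
    exact absurd (hFG x).symm h
  · intro x _ y _ h
    rw [hF1] at h
    exact absurd h one_ne_zero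
  · intro x _ y _ h
    rw [hF1] at h
    exact absurd h one_ne_zero
  · intro x _ y _ h
    rw [hFG, hF1] at h
    exact absurd h one_ne_zero
  · intro x _ y _ h
    rw [hFG, hF1] at h
    exact absurd h one_ne_zero

open Classical in
/-- label of a point -/
noncomputable def lab (F G : ℝ × ℝ → ℝ) (x : ℝ × ℝ) : Lab :=
  if F x = 0 then (if G x < 0 then am else ap) else (if 0 < F x then bp else bm)

open Classical in
/-- points other than `q` and the common point of the two lines -/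
noncomputable def core (S : Finset (ℝ × ℝ)) (F G : ℝ × ℝ → ℝ) : Finset (ℝ × ℝ) :=
  S.filter fun x => F x ≠ G x

open Classical in
/-- letter at a key -/
noncomputable def letter (C : Finset (ℝ × ℝ)) (κ : ℝ × ℝ → ℝ) (l : ℝ × ℝ → Lab) (k : ℝ) :
    Finset Lab :=
  (C.filter fun x => κ x = k).image l

/-- the word of a finite labelled set with keys -/
noncomputable def wordOf (C : Finset (ℝ × ℝ)) (κ : ℝ × ℝ → ℝ) (l : ℝ × ℝ → Lab) :
    List (Finset Lab) :=
  ((C.image κ).sort (· ≤ ·)).map (letter C κ l)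

/-- the word of a normal form -/
noncomputable def word (S : Finset (ℝ × ℝ)) (F G κ : ℝ × ℝ → ℝ) : List (Finset Lab) :=
  wordOf (core S F G) κ (lab F G)

/-- the common point of the two lines is present -/
def HasO (S : Finset (ℝ × ℝ)) (F G : ℝ × ℝ → ℝ) : Prop := ∃ x ∈ S, F x = 0 ∧ G x = 0

theorem mem_core {S : Finset (ℝ × ℝ)} {F G : ℝ × ℝ → ℝ} {x : ℝ × ℝ} :
    x ∈ core S F G ↔ x ∈ S ∧ F x ≠ G x := by
  classical
  unfold core
  rw [mem_filter]

theorem mem_letter {C : Finset (ℝ × ℝ)} {κ : ℝ × ℝ → ℝ} {l : ℝ × ℝ → Lab} {k : ℝ} {a : Lab} :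
    a ∈ letter C κ l k ↔ ∃ x ∈ C, κ x = k ∧ l x = a := by
  classical
  unfold letter
  simp only [mem_image, mem_filter, and_assoc]

theorem mem_wordOf {C : Finset (ℝ × ℝ)} {κ : ℝ × ℝ → ℝ} {l : ℝ × ℝ → Lab} {a : Finset Lab} :
    a ∈ wordOf C κ l ↔ ∃ x ∈ C, letter C κ l (κ x) = a := by
  unfold wordOf
  simp only [List.mem_map, mem_sort, mem_image]
  constructor
  · rintro ⟨_, ⟨x, hx, rfl⟩, h⟩
    exact ⟨x, hx, h⟩
  · rintro ⟨x, hx, h⟩
    exact ⟨_, ⟨x, hx, rfl⟩, h⟩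

/-- signs of the two affine functions read off from the label -/
def sF : Lab → SignType
  | am => 0 | ap => 0 | bp => 1 | bm => -1

/-- signs of the two affine functions read off from the label -/
def sG : Lab → SignType
  | am => -1 | ap => 1 | bp => 0 | bm => 0

/-- sign of the difference -/
def sE : Lab → SignType
  | am => 1 | ap => -1 | bp => 1 | bm => -1

theorem lab_ext : ∀ a b : Lab, sF a = sF b → sG a = sG b → a = b := by decide

theorem sE_sq : ∀ a : Lab, sE a * sE a = 1 := by decide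

theorem Normal.cases {S : Finset (ℝ × ℝ)} {q : ℝ × ℝ} {F G κ : ℝ × ℝ → ℝ}
    (h : Normal S q F G κ) {x : ℝ × ℝ} (hx : x ∈ core S F G) :
    (lab F G x = am ∧ F x = 0 ∧ G x < 0) ∨ (lab F G x = ap ∧ F x = 0 ∧ 0 < G x) ∨
      (lab F G x = bp ∧ G x = 0 ∧ 0 < F x) ∨ (lab F G x = bm ∧ G x = 0 ∧ F x < 0) := by
  obtain ⟨hxS, hne⟩ := mem_core.1 hx
  unfold lab
  by_cases h1 : F x = 0
  · rw [if_pos h1]
    by_cases h2 : G x < 0
    · rw [if_pos h2]; exact Or.inl ⟨rfl, h1, h2⟩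
    · rw [if_neg h2]
      exact Or.inr (Or.inl ⟨rfl, h1, lt_of_le_of_ne (not_lt.1 h2) (h1 ▸ hne)⟩)
  · rw [if_neg h1]
    have hG : G x = 0 := by
      rcases h.cover x hxS with rfl | h3 | h3
      · exact absurd (h.Fq.trans h.Gq.symm) hne
      · exact absurd h3 h1
      · exact h3
    by_cases h2 : 0 < F x
    · rw [if_pos h2]; exact Or.inr (Or.inr (Or.inl ⟨rfl, hG, h2⟩))
    · rw [if_neg h2]
      exact Or.inr (Or.inr (Or.inr ⟨rfl, hG, lt_of_le_of_ne (not_lt.1 h2) h1⟩))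

theorem Normal.signs {S : Finset (ℝ × ℝ)} {q : ℝ × ℝ} {F G κ : ℝ × ℝ → ℝ}
    (h : Normal S q F G κ) {x : ℝ × ℝ} (hx : x ∈ core S F G) :
    sign (F x) = sF (lab F G x) ∧ sign (G x) = sG (lab F G x) ∧
      sign (F x - G x) = sE (lab F G x) := by
  rcases h.cases hx with ⟨h1, h2, h3⟩ | ⟨h1, h2, h3⟩ | ⟨h1, h2, h3⟩ | ⟨h1, h2, h3⟩ <;> rw [h1, h2]
  · exact ⟨sign_zero, sign_neg h3, sign_pos (by linarith)⟩
  · exact ⟨sign_zero, sign_pos h3, sign_neg (by linarith)⟩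
  · exact ⟨sign_pos h3, sign_zero, sign_pos (by linarith)⟩
  · exact ⟨sign_neg h3, sign_zero, sign_neg (by linarith)⟩

theorem Normal.valid {S : Finset (ℝ × ℝ)} {q : ℝ × ℝ} {F G κ : ℝ × ℝ → ℝ}
    (h : Normal S q F G κ) {x y : ℝ × ℝ} (hx : x ∈ core S F G) (hy : y ∈ core S F G)
    (hxy : κ x ≤ κ y) : lo (lab F G x) ≤ hi (lab F G y) := by
  have hxS := (mem_core.1 hx).1
  have hyS := (mem_core.1 hy).1
  rcases h.cases hx with ⟨h1, h2, h3⟩ | ⟨h1, h2, h3⟩ | ⟨h1, h2, h3⟩ | ⟨h1, h2, h3⟩ <;>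
    rcases h.cases hy with ⟨k1, k2, k3⟩ | ⟨k1, k2, k3⟩ | ⟨k1, k2, k3⟩ | ⟨k1, k2, k3⟩ <;>
    rw [h1, k1] <;>
    first
      | decide
      | exact absurd (h.v1 x hxS y hyS h2 h3 k2 k3) (not_lt.2 hxy)
      | exact absurd (h.v2 x hxS y hyS h2 h3 k2 k3) (not_lt.2 hxy)
      | exact absurd (h.v3 x hxS y hyS h2 h3 k2 k3) (not_lt.2 hxy)

theorem Normal.inj {S : Finset (ℝ × ℝ)} {q : ℝ × ℝ} {F G κ : ℝ × ℝ → ℝ}
    (h : Normal S q F G κ) {x y : ℝ × ℝ} (hx : x ∈ core S F G) (hy : y ∈ core S F G)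
    (h1 : κ x = κ y) (h2 : lab F G x = lab F G y) : x = y := by
  by_contra hne
  have e : D q x y = 0 := by
    rw [← sign_eq_zero_iff, h.key x (mem_core.1 hx).1 y (mem_core.1 hy).1 (mem_core.1 hx).2
      (mem_core.1 hy).2, h1, sub_self, sign_zero, mul_zero]
  rw [D_cyc] at e
  have nF : F q ≠ 0 := by rw [h.Fq]; exact one_ne_zero
  have nG : G q ≠ 0 := by rw [h.Gq]; exact one_ne_zero
  rcases h.cases hx with ⟨a1, a2, a3⟩ | ⟨a1, a2, a3⟩ | ⟨a1, a2, a3⟩ | ⟨a1, a2, a3⟩ <;>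
    rcases h.cases hy with ⟨k1, k2, k3⟩ | ⟨k1, k2, k3⟩ | ⟨k1, k2, k3⟩ | ⟨k1, k2, k3⟩ <;>
    rw [a1, k1] at h2 <;>
    first
      | exact absurd h2 (by decide)
      | exact h.hF.D_ne_zero a2 k2 hne nF e
      | exact h.hG.D_ne_zero a2 k2 hne nG e

theorem Normal.uniqueO {S : Finset (ℝ × ℝ)} {q : ℝ × ℝ} {F G κ : ℝ × ℝ → ℝ}
    (h : Normal S q F G κ) {x y : ℝ × ℝ} (hx : x ∈ S) (hy : y ∈ S) (x1 : F x = 0) (x2 : G x = 0)
    (y1 : F y = 0) (y2 : G y = 0) : x = y := by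
  by_contra hne
  have e : D q x y = 0 := by
    rw [← sign_eq_zero_iff, h.keyO x hx y hy x1 x2, y1, y2, sub_self, sign_zero]
  rw [D_cyc] at e
  exact h.hF.D_ne_zero x1 y1 hne (by rw [h.Fq]; exact one_ne_zero) e

theorem Normal.tri {S : Finset (ℝ × ℝ)} {q : ℝ × ℝ} {F G κ : ℝ × ℝ → ℝ}
    (h : Normal S q F G κ) {x : ℝ × ℝ} (hx : x ∈ S) :
    x = q ∨ (F x = 0 ∧ G x = 0) ∨ x ∈ core S F G := by
  by_cases e : F x = G x
  · rcases h.cover x hx with h1 | h1 | h1
    · exact Or.inl h1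
    · exact Or.inr (Or.inl ⟨h1, e ▸ h1⟩)
    · exact Or.inr (Or.inl ⟨e ▸ h1, h1⟩)
  · exact Or.inr (Or.inr (mem_core.2 ⟨hx, e⟩))

theorem Normal.val_word {S : Finset (ℝ × ℝ)} {q : ℝ × ℝ} {F G κ : ℝ × ℝ → ℝ}
    (h : Normal S q F G κ) : Val 1 (word S F G κ) := by
  rw [val_iff]
  constructor
  · intro l hl
    obtain ⟨x, hx, rfl⟩ := mem_wordOf.1 hl
    refine ⟨⟨_, mem_letter.2 ⟨x, hx, rfl, rfl⟩⟩, fun b _ => by cases b <;> decide,
      fun a ha b hb => ?_⟩
    obtain ⟨u, hu, u1, rfl⟩ := mem_letter.1 ha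
    obtain ⟨v, hv, v1, rfl⟩ := mem_letter.1 hb
    exact h.valid hu hv (u1.trans v1.symm).le
  · unfold word wordOf
    rw [List.pairwise_map]
    refine (pairwise_sort_lt _).imp fun {k k'} hk a ha b hb => ?_
    obtain ⟨u, hu, u1, rfl⟩ := mem_letter.1 ha
    obtain ⟨v, hv, v1, rfl⟩ := mem_letter.1 hb
    exact h.valid hu hv (by rw [u1, v1]; exact hk.le)

theorem sum_map_sort (K : Finset ℝ) (c : ℝ → ℕ) :
    ((K.sort (· ≤ ·)).map c).sum = ∑ k ∈ K, c k := by
  rw [((K.sort_perm_toList (· ≤ ·)).map c).sum_eq, sum_map_toList]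

theorem Normal.wt_word {S : Finset (ℝ × ℝ)} {q : ℝ × ℝ} {F G κ : ℝ × ℝ → ℝ}
    (h : Normal S q F G κ) : wt (word S F G κ) = (core S F G).card := by
  classical
  unfold wt word wordOf
  rw [List.map_map, sum_map_sort, card_eq_sum_card_image κ (core S F G)]
  refine sum_congr rfl fun k _ => ?_
  unfold letter
  simp only [Function.comp]
  rw [card_image_of_injOn]
  intro x hx y hy hxy
  have hx' := mem_filter.1 (mem_coe.1 hx)
  have hy' := mem_filter.1 (mem_coe.1 hy)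
  exact h.inj hx'.1 hy'.1 (hx'.2.trans hy'.2.symm) hxy

open Classical in
theorem Normal.card_eq {S : Finset (ℝ × ℝ)} {q : ℝ × ℝ} {F G κ : ℝ × ℝ → ℝ}
    (h : Normal S q F G κ) :
    S.card = wt (word S F G κ) + (if HasO S F G then 1 else 0) + (if q ∈ S then 1 else 0) := by
  rw [h.wt_word]
  have e1 := card_filter_add_card_filter_not (s := S) fun x => F x ≠ G x
  have e2 := card_filter_add_card_filter_not (s := S.filter fun x => ¬ F x ≠ G x)
    fun x => F x = 0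
  have e3 : ((S.filter fun x => ¬ F x ≠ G x).filter fun x => F x = 0).card =
      if HasO S F G then 1 else 0 := by
    split_ifs with ho
    · obtain ⟨o, ho, o1, o2⟩ := ho
      rw [card_eq_one]
      refine ⟨o, eq_singleton_iff_unique_mem.2 ⟨by simp [ho, o1, o2], fun x hx => ?_⟩⟩
      simp only [mem_filter, not_not] at hx
      exact h.uniqueO hx.1.1 ho hx.2 (hx.1.2 ▸ hx.2) o1 o2
    · rw [card_eq_zero, eq_empty_iff_forall_notMem]
      intro x hx
      simp only [mem_filter, not_not] at hx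
      exact ho ⟨x, hx.1.1, hx.2, hx.1.2 ▸ hx.2⟩
  have key : ∀ x ∈ (S.filter fun x => ¬ F x ≠ G x).filter fun x => ¬ F x = 0, x = q := by
    intro x hx
    simp only [mem_filter, not_not] at hx
    rcases h.cover x hx.1.1 with h1 | h1 | h1
    · exact h1
    · exact absurd h1 hx.2
    · exact absurd (hx.1.2.trans h1) hx.2
  have e4 : ((S.filter fun x => ¬ F x ≠ G x).filter fun x => ¬ F x = 0).card =
      if q ∈ S then 1 else 0 := by
    split_ifs with ho
    · rw [card_eq_one]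
      exact ⟨q, eq_singleton_iff_unique_mem.2 ⟨by simp [ho, h.Fq, h.Gq], key⟩⟩
    · rw [card_eq_zero, eq_empty_iff_forall_notMem]
      intro x hx
      have := key x hx
      subst this
      exact ho (mem_filter.1 (mem_filter.1 hx).1).1
  unfold core
  omega

end Pool.Agent.P.MP_639dfe_co
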