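import Pool.Agent.P.MP_639dfe_co.Code

namespace Pool.Agent.P.MP_639dfe_co

open Finset SignType Lab

/-- the point in direction `(-k, 1)` on the line `x + t y = 1` -/
noncomputable def pt (t k : ℝ) : ℝ × ℝ := (-k / (t - k), 1 / (t - k))

/-- parameter of the line carrying a label -/
def par (a b : ℝ) : Lab → ℝ
  | am => a | ap => a | bp => b | bm => b

theorem exists_model (w : List (Finset Lab)) (hw : Val 1 w) (o : Prop) :
    ∃ S q F G κ, Normal S q F G κ ∧ q ∈ S ∧ word S F G κ = w ∧ (HasO S F G ↔ o) := by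
  classical
  obtain ⟨hw1, hw2⟩ := (val_iff w 1).1 hw
  set n := w.length with hn
  set c : ℕ → Finset Lab := fun i => w.getD i ∅ with hc
  have hcget : ∀ i (hi : i < n), c i = w[i] := fun i hi => by
    simp only [hc]; exact List.getD_eq_getElem _ _ hi
  have hcmem : ∀ i, i < n → c i ∈ w := fun i hi => by rw [hcget i hi]; exact List.getElem_mem _
  have hlt : ∀ i a, a ∈ c i → i < n := by
    intro i a ha
    by_contra hi
    simp only [hc] at ha
    rw [List.getD_eq_default _ _ (not_lt.1 hi)] at ha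
    exact notMem_empty _ ha
  have hval : ∀ i j, i ≤ j → ∀ a ∈ c i, ∀ b ∈ c j, lo a ≤ hi b := by
    intro i j hij a ha b hb
    rcases hij.eq_or_lt with rfl | hij
    · exact (hw1 _ (hcmem i (hlt i a ha))).2.2 a ha b hb
    · have hi := hlt i a ha
      have hj := hlt j b hb
      rw [hcget i hi] at ha
      rw [hcget j hj] at hb
      exact List.pairwise_iff_getElem.1 hw2 i j hi hj hij a ha b hb
  have exI : ∃ j, ap ∈ c j ∨ bm ∈ c j ∨ j = n := ⟨n, Or.inr (Or.inr rfl)⟩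
  have exJ : ∃ j, bm ∈ c j ∨ j = n := ⟨n, Or.inr rfl⟩
  have hIJ : Nat.find exI ≤ Nat.find exJ := Nat.find_mono fun j h => Or.inr h
  have i1 : ∀ i, am ∈ c i → i < Nat.find exI := by
    intro i hi
    by_contra hcon
    rcases Nat.find_spec exI with h | h | h
    · exact absurd (hval _ _ (not_lt.1 hcon) _ h _ hi) (by decide)
    · exact absurd (hval _ _ (not_lt.1 hcon) _ h _ hi) (by decide)
    · exact hcon ((hlt i _ hi).trans_eq h.symm)
  have i2 : ∀ i, ap ∈ c i → Nat.find exI ≤ i := fun i hi => Nat.find_le (Or.inl hi)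
  have i3 : ∀ i, bp ∈ c i → i < Nat.find exJ := by
    intro i hi
    by_contra hcon
    rcases Nat.find_spec exJ with h | h
    · exact absurd (hval _ _ (not_lt.1 hcon) _ h _ hi) (by decide)
    · exact hcon ((hlt i _ hi).trans_eq h.symm)
  have i4 : ∀ i, bm ∈ c i → Nat.find exJ ≤ i := fun i hi => Nat.find_le (Or.inl hi)
  obtain ⟨lam, mu, hlm, j1, j2, j3, j4⟩ : ∃ lam mu : ℝ, lam < mu ∧
      (∀ i : ℕ, am ∈ c i → (i : ℝ) < lam) ∧ (∀ i : ℕ, ap ∈ c i → lam < i) ∧
      (∀ i : ℕ, bp ∈ c i → (i : ℝ) < mu) ∧ (∀ i : ℕ, bm ∈ c i → mu < i) := by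
    refine ⟨(Nat.find exI : ℝ) - 2 / 3, (Nat.find exJ : ℝ) - 1 / 3, ?_, fun i hi => ?_,
      fun i hi => ?_, fun i hi => ?_, fun i hi => ?_⟩
    · have : (Nat.find exI : ℝ) ≤ Nat.find exJ := by exact_mod_cast hIJ
      linarith
    · have : (i : ℝ) + 1 ≤ Nat.find exI := by exact_mod_cast i1 i hi
      linarith
    · have : (Nat.find exI : ℝ) ≤ i := by exact_mod_cast i2 i hi
      linarith
    · have : (i : ℝ) + 1 ≤ Nat.find exJ := by exact_mod_cast i3 i hi
      linarith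
    · have : (Nat.find exJ : ℝ) ≤ i := by exact_mod_cast i4 i hi
      linarith
  clear i1 i2 i3 i4 hIJ exI exJ
  set F : ℝ × ℝ → ℝ := fun x => 1 - x.1 - lam * x.2 with hF
  set G : ℝ × ℝ → ℝ := fun x => 1 - x.1 - mu * x.2 with hG
  set κ : ℝ × ℝ → ℝ := fun x => -x.1 / x.2 with hκ
  set P : ℕ → Lab → ℝ × ℝ := fun i l => pt (par lam mu l) i with hP
  have hd : 0 < mu - lam := sub_pos.2 hlm
  have fF : ∀ k : ℝ, lam - k ≠ 0 → F (pt lam k) = 0 ∧ G (pt lam k) = -(mu - lam) / (lam - k) ∧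
      κ (pt lam k) = k := by
    intro k hk
    simp only [hF, hG, hκ, pt]
    refine ⟨?_, ?_, ?_⟩ <;> field_simp <;> ring
  have fG : ∀ k : ℝ, mu - k ≠ 0 → G (pt mu k) = 0 ∧ F (pt mu k) = (mu - lam) / (mu - k) ∧
      κ (pt mu k) = k := by
    intro k hk
    simp only [hF, hG, hκ, pt]
    refine ⟨?_, ?_, ?_⟩ <;> field_simp <;> ring
  have hPt : ∀ i l, l ∈ c i → κ (P i l) = i ∧ lab F G (P i l) = l ∧
      ((l = am ∧ F (P i l) = 0 ∧ G (P i l) < 0) ∨ (l = ap ∧ F (P i l) = 0 ∧ 0 < G (P i l)) ∨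
        (l = bp ∧ G (P i l) = 0 ∧ 0 < F (P i l)) ∨ (l = bm ∧ G (P i l) = 0 ∧ F (P i l) < 0)) := by
    intro i l hl
    cases l with
    | am =>
      have h0 := sub_pos.2 (j1 i hl)
      obtain ⟨a, b, d⟩ := fF i h0.ne'
      have e : G (pt lam i) < 0 := by rw [b]; exact div_neg_of_neg_of_pos (by linarith) h0
      exact ⟨d, by unfold lab; exact (if_pos a).trans (if_pos e), Or.inl ⟨rfl, a, e⟩⟩
    | ap =>
      have h0 := sub_neg.2 (j2 i hl)
      obtain ⟨a, b, d⟩ := fF i h0.ne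
      have e : 0 < G (pt lam i) := by rw [b]; exact div_pos_of_neg_of_neg (by linarith) h0
      exact ⟨d, by unfold lab; exact (if_pos a).trans (if_neg e.not_gt),
        Or.inr (Or.inl ⟨rfl, a, e⟩)⟩
    | bp =>
      have h0 := sub_pos.2 (j3 i hl)
      obtain ⟨a, b, d⟩ := fG i h0.ne'
      have e : 0 < F (pt mu i) := by rw [b]; exact div_pos hd h0
      exact ⟨d, by unfold lab; exact (if_neg e.ne').trans (if_pos e),
        Or.inr (Or.inr (Or.inl ⟨rfl, a, e⟩))⟩
    | bm =>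
      have h0 := sub_neg.2 (j4 i hl)
      obtain ⟨a, b, d⟩ := fG i h0.ne
      have e : F (pt mu i) < 0 := by rw [b]; exact div_neg_of_pos_of_neg hd h0
      exact ⟨d, by unfold lab; exact (if_neg e.ne).trans (if_neg e.not_gt),
        Or.inr (Or.inr (Or.inr ⟨rfl, a, e⟩))⟩
  set C : Finset (ℝ × ℝ) := (range n).biUnion fun i => (c i).image (P i) with hC
  have memC : ∀ x, x ∈ C ↔ ∃ i l, l ∈ c i ∧ P i l = x := by
    intro x
    simp only [hC, mem_biUnion, mem_range, mem_image]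
    exact ⟨fun ⟨i, _, l, h⟩ => ⟨i, l, h⟩, fun ⟨i, l, h⟩ => ⟨i, hlt i l h.1, l, h⟩⟩
  set S : Finset (ℝ × ℝ) := insert (0, 0) ((if o then {(1, 0)} else ∅) ∪ C) with hS
  have memS : ∀ x, x ∈ S ↔ x = (0, 0) ∨ (o ∧ x = (1, 0)) ∨ x ∈ C := by
    intro x
    simp only [hS, mem_insert, mem_union]
    split_ifs with ho <;> simp [ho]
  have F0 : F (0, 0) = 1 := by simp [hF]
  have G0 : G (0, 0) = 1 := by simp [hG]
  have F1 : F (1, 0) = 0 := by simp [hF]
  have G1 : G (1, 0) = 0 := by simp [hG]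
  have hCne : ∀ x ∈ C, F x ≠ G x := by
    intro x hx
    obtain ⟨i, l, hl, rfl⟩ := (memC x).1 hx
    rcases (hPt i l hl).2.2 with h | h | h | h <;> linarith [h.2.1, h.2.2] 
  have hcore : core S F G = C := by
    ext x
    rw [mem_core, memS]
    constructor
    · rintro ⟨rfl | ⟨-, rfl⟩ | h, hne⟩
      · exact absurd (F0.trans G0.symm) hne
      · exact absurd (F1.trans G1.symm) hne
      · exact h
    · exact fun h => ⟨Or.inr (Or.inr h), hCne x h⟩
  have hO : ∀ x ∈ S, F x = 0 → G x = 0 → o ∧ x = (1, 0) := by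
    intro x hx h1 h2
    rcases (memS x).1 hx with rfl | h | h
    · rw [F0] at h1; exact absurd h1 one_ne_zero
    · exact h
    · exact absurd (h1.trans h2.symm) (hCne x h)
  have hFG : ∀ x, sign (F x - G x) = sign x.2 := by
    intro x
    have : F x - G x = (mu - lam) * x.2 := by simp only [hF, hG]; ring
    rw [this, sign_mul, sign_pos hd, one_mul]
  have getP : ∀ x ∈ S, F x ≠ G x → ∃ i l, l ∈ c i ∧ P i l = x := fun x hx hne =>
    (memC x).1 (hcore ▸ mem_core.2 ⟨hx, hne⟩)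
  have hv : ∀ (a b : Lab), ¬ lo a ≤ hi b → ∀ i j, a ∈ c i → b ∈ c j → κ (P j b) < κ (P i a) := by
    intro a b hab i j ha hb
    rw [(hPt i a ha).1, (hPt j b hb).1, Nat.cast_lt]
    by_contra hcon
    exact hab (hval i j (not_lt.1 hcon) a ha b hb)
  have isam : ∀ i l, l ∈ c i → F (P i l) = 0 → G (P i l) < 0 → l = am := by
    intro i l hl h1 h2
    rcases (hPt i l hl).2.2 with h | h | h | h <;> first | exact h.1 | linarith [h.2.1, h.2.2]
  have isap : ∀ i l, l ∈ c i → F (P i l) = 0 → 0 < G (P i l) → l = ap := by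
    intro i l hl h1 h2
    rcases (hPt i l hl).2.2 with h | h | h | h <;> first | exact h.1 | linarith [h.2.1, h.2.2]
  have isbp : ∀ i l, l ∈ c i → G (P i l) = 0 → 0 < F (P i l) → l = bp := by
    intro i l hl h1 h2
    rcases (hPt i l hl).2.2 with h | h | h | h <;> first | exact h.1 | linarith [h.2.1, h.2.2]
  have isbm : ∀ i l, l ∈ c i → G (P i l) = 0 → F (P i l) < 0 → l = bm := by
    intro i l hl h1 h2
    rcases (hPt i l hl).2.2 with h | h | h | h <;> first | exact h.1 | linarith [h.2.1, h.2.2]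
  refine ⟨S, (0, 0), F, G, κ, ⟨⟨-1, -lam, 1, fun x => by simp only [hF]; ring⟩,
    ⟨-1, -mu, 1, fun x => by simp only [hG]; ring⟩, F0, G0, ?_, ?_, ?_, ?_, ?_, ?_⟩,
    (memS _).2 (Or.inl rfl), ?_, ?_⟩
  · intro x hx
    rcases (memS x).1 hx with h | ⟨-, rfl⟩ | h
    · exact Or.inl h
    · exact Or.inr (Or.inl F1)
    · obtain ⟨i, l, hl, rfl⟩ := (memC x).1 h
      rcases (hPt i l hl).2.2 with h | h | h | h
      exacts [Or.inr (Or.inl h.2.1), Or.inr (Or.inl h.2.1), Or.inr (Or.inr h.2.1),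
        Or.inr (Or.inr h.2.1)]
  · intro x _ y _ hx hy
    have x2 : x.2 ≠ 0 := by
      rw [Ne, ← sign_eq_zero_iff, ← hFG, sign_eq_zero_iff]; exact sub_ne_zero.2 hx
    have y2 : y.2 ≠ 0 := by
      rw [Ne, ← sign_eq_zero_iff, ← hFG, sign_eq_zero_iff]; exact sub_ne_zero.2 hy
    rw [hFG, hFG, ← sign_mul, ← sign_mul]
    congr 1
    simp only [hκ, D]
    field_simp
    ring
  · intro x hx y _ h1 h2
    rw [(hO x hx h1 h2).2, hFG]
    simp [D]
  · intro x hx y hy x1 x2 y1 y2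
    obtain ⟨i, a, ha, rfl⟩ := getP x hx (by linarith)
    obtain ⟨j, b, hb, rfl⟩ := getP y hy (by linarith)
    obtain rfl := isap i a ha x1 x2
    obtain rfl := isam j b hb y1 y2
    exact hv _ _ (by decide) i j ha hb
  · intro x hx y hy x1 x2 y1 y2
    obtain ⟨i, a, ha, rfl⟩ := getP x hx (by linarith)
    obtain ⟨j, b, hb, rfl⟩ := getP y hy (by linarith)
    obtain rfl := isbm i a ha x1 x2
    obtain rfl := isam j b hb y1 y2
    exact hv _ _ (by decide) i j ha hb
  · intro x hx y hy x1 x2 y1 y2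
    obtain ⟨i, a, ha, rfl⟩ := getP x hx (by linarith)
    obtain ⟨j, b, hb, rfl⟩ := getP y hy (by linarith)
    obtain rfl := isbm i a ha x1 x2
    obtain rfl := isbp j b hb y1 y2
    exact hv _ _ (by decide) i j ha hb
  · unfold word wordOf
    rw [hcore]
    have hs : (C.image κ).sort (· ≤ ·) = (List.range n).map fun i : ℕ => (i : ℝ) := by
      refine List.Pairwise.eq_of_mem_iff (r := (· < ·)) (pairwise_sort_lt _) ?_ fun k => ?_
      · rw [List.pairwise_map]
        exact List.pairwise_lt_range.imp fun h => Nat.cast_lt.2 h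
      · simp only [mem_sort, mem_image, List.mem_map, List.mem_range]
        constructor
        · rintro ⟨x, hx, rfl⟩
          obtain ⟨i, l, hl, rfl⟩ := (memC x).1 hx
          exact ⟨i, hlt i l hl, (hPt i l hl).1.symm⟩
        · rintro ⟨i, hi, rfl⟩
          obtain ⟨l, hl⟩ := (hw1 _ (hcmem i hi)).1
          exact ⟨P i l, (memC _).2 ⟨i, l, hl, rfl⟩, (hPt i l hl).1⟩
    rw [hs, List.map_map]
    refine List.ext_getElem (by simp [hn]) fun i h1 h2 => ?_
    rw [← hcget i h2]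
    simp only [List.getElem_map, List.getElem_range, Function.comp]
    ext a
    rw [mem_letter]
    constructor
    · rintro ⟨x, hx, x1, rfl⟩
      obtain ⟨j, l, hl, rfl⟩ := (memC x).1 hx
      rw [(hPt j l hl).1, Nat.cast_inj] at x1
      rw [(hPt j l hl).2.1, ← x1]
      exact hl
    · intro ha
      exact ⟨P i a, (memC _).2 ⟨i, a, ha, rfl⟩, (hPt i a ha).1, (hPt i a ha).2.1⟩
  · constructor
    · rintro ⟨x, hx, h1, h2⟩
      exact (hO x hx h1 h2).1
    · intro ho
      exact ⟨(1, 0), (memS _).2 (Or.inr (Or.inl ⟨ho, rfl⟩)), F1, G1⟩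

theorem exists_all_ne_zero {ι : Type} (I : Finset ι) (F : ι → ℝ × ℝ → ℝ)
    (h : ∀ i ∈ I, IsAff (F i) ∧ ∃ p, F i p ≠ 0) : ∃ q, ∀ i ∈ I, F i q ≠ 0 := by
  have hfin : ∀ i ∈ (I : Set ι), {t : ℝ | F i (t, t ^ 2) = 0}.Finite := by
    intro i hi
    obtain ⟨⟨α, β, γ, hF⟩, p, hp⟩ := h i hi
    have hne : (Polynomial.C β * Polynomial.X ^ 2 + Polynomial.C α * Polynomial.X +
        Polynomial.C γ : Polynomial ℝ) ≠ 0 := by
      intro h0
      have e0 := congrArg (Polynomial.eval 0) h0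
      have e1 := congrArg (Polynomial.eval 1) h0
      have e2 := congrArg (Polynomial.eval (-1)) h0
      simp only [Polynomial.eval_add, Polynomial.eval_mul, Polynomial.eval_C, Polynomial.eval_pow,
        Polynomial.eval_X, Polynomial.eval_zero] at e0 e1 e2
      apply hp
      have : γ = 0 := by linarith
      have : α = 0 := by linarith
      have : β = 0 := by linarith
      rw [hF]; simp [*]
    refine (Polynomial.finite_setOfPred_isRoot hne).subset fun t ht => ?_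
    simp only [Set.mem_ofPred_eq, hF] at ht
    simp only [Set.mem_ofPred_eq, Polynomial.IsRoot.def, Polynomial.eval_add, Polynomial.eval_mul,
      Polynomial.eval_C, Polynomial.eval_pow, Polynomial.eval_X]
    linarith
  obtain ⟨t, ht⟩ := (I.finite_toSet.biUnion hfin).infinite_compl.nonempty
  exact ⟨(t, t ^ 2), fun i hi h0 => ht (Set.mem_biUnion hi h0)⟩

theorem TwoLines.generic {S : Finset (ℝ × ℝ)} {q : ℝ × ℝ} (h : TwoLines S q) (hq : q ∉ S) :
    ∃ q', q' ∉ S ∧ TwoLines S q' ∧ ∀ x ∈ S, ∀ y ∈ S, x ≠ y → D x y q' ≠ 0 := by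
  classical
  obtain ⟨F, G, hF, hG, Fq, Gq, cover⟩ := h
  obtain ⟨r, hr⟩ := exists_all_ne_zero
    (insert (Sum.inl true) (insert (Sum.inl false) (S.offDiag.image Sum.inr)))
    (Sum.elim (fun b : Bool => if b then F else G) fun p : (ℝ × ℝ) × (ℝ × ℝ) => D p.1 p.2)
    (by
      intro i hi
      simp only [mem_insert, mem_image] at hi
      rcases hi with rfl | rfl | ⟨p, hp, rfl⟩
      · exact ⟨hF, q, by simp [Fq]⟩
      · exact ⟨hG, q, by simp [Gq]⟩
      · exact ⟨isAff_D _ _, exists_D_ne_zero (mem_offDiag.1 hp).2.2⟩)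
  have r1 : F r ≠ 0 := hr (Sum.inl true) (by simp)
  have r2 : G r ≠ 0 := hr (Sum.inl false) (by simp)
  have cover' : ∀ x ∈ S, F x = 0 ∨ G x = 0 := fun x hx =>
    (cover x hx).resolve_left fun e => hq (e ▸ hx)
  refine ⟨r, fun hrS => (cover' r hrS).elim r1 r2, ⟨fun x => F x / F r, fun x => G x / G r,
    hF.div _, hG.div _, div_self r1, div_self r2, fun x hx => Or.inr ?_⟩, fun x hx y hy hxy =>
      hr (Sum.inr (x, y)) (mem_insert_of_mem (mem_insert_of_mem
        (mem_image_of_mem _ (mem_offDiag.2 ⟨hx, hy, hxy⟩))))⟩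
  rcases cover' x hx with h | h
  · exact Or.inl (by simp only [h, zero_div])
  · exact Or.inr (by simp only [h, zero_div])

theorem Normal.single {S : Finset (ℝ × ℝ)} {q : ℝ × ℝ} {F G κ : ℝ × ℝ → ℝ}
    (h : Normal S q F G κ) (hg : ∀ x ∈ S, ∀ y ∈ S, x ≠ y → D x y q ≠ 0) :
    ∀ l ∈ word S F G κ, l.card = 1 := by
  intro l hl
  obtain ⟨x, hx, rfl⟩ := mem_wordOf.1 hl
  rw [card_eq_one]
  refine ⟨lab F G x, eq_singleton_iff_unique_mem.2 ⟨mem_letter.2 ⟨x, hx, rfl, rfl⟩, fun a ha => ?_⟩⟩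
  obtain ⟨y, hy, y1, rfl⟩ := mem_letter.1 ha
  by_cases e : x = y
  · rw [e]
  · exfalso
    refine hg x (mem_core.1 hx).1 y (mem_core.1 hy).1 e ?_
    rw [← D_cyc, ← sign_eq_zero_iff, h.key x (mem_core.1 hx).1 y (mem_core.1 hy).1
      (mem_core.1 hx).2 (mem_core.1 hy).2, y1, sub_self, sign_zero, mul_zero]

theorem collinear_of_D {a b c : ℝ × ℝ} (hab : a ≠ b) (h : D a b c = 0) :
    Collinear ℝ {a, b, c} := by
  rw [collinear_iff_of_mem (p₀ := a) (by simp)]
  refine ⟨b - a, fun p hp => ?_⟩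
  simp only [Set.mem_insert_iff, Set.mem_singleton_iff] at hp
  rcases hp with rfl | rfl | rfl
  · exact ⟨0, by simp⟩
  · exact ⟨1, by simp⟩
  · unfold D at h
    by_cases h1 : b.1 - a.1 = 0
    · have h2 : b.2 - a.2 ≠ 0 := fun h2 => hab (Prod.ext (by linarith) (by linarith))
      refine ⟨(p.2 - a.2) / (b.2 - a.2), Prod.ext ?_ ?_⟩ <;>
        simp only [vadd_eq_add, Prod.fst_add, Prod.snd_add, Prod.smul_fst, Prod.smul_snd,
          Prod.fst_sub, Prod.snd_sub, smul_eq_mul] <;> field_simp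
      · linear_combination -h
      · ring
    · refine ⟨(p.1 - a.1) / (b.1 - a.1), Prod.ext ?_ ?_⟩ <;>
        simp only [vadd_eq_add, Prod.fst_add, Prod.snd_add, Prod.smul_fst, Prod.smul_snd,
          Prod.fst_sub, Prod.snd_sub, smul_eq_mul] <;> field_simp
      · ring
      · linear_combination h

theorem Normal.inClass {S : Finset (ℝ × ℝ)} {q : ℝ × ℝ} {F G κ : ℝ × ℝ → ℝ}
    (h : Normal S q F G κ) : InClass 6 S := by
  classical
  intro R hR hg
  have key : ∀ H : ℝ × ℝ → ℝ, IsAff H → H q = 1 → (R.filter fun x => H x = 0).card ≤ 2 := by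
    intro H hH Hq
    by_contra hc
    obtain ⟨a, ha, b, hb, c, hc, hab, hac, hbc⟩ := two_lt_card.1 (not_le.1 hc)
    rw [mem_filter] at ha hb hc
    exact hg a ha.1 b hb.1 c hc.1 hab hac hbc (collinear_of_D hab
      (hH.D_eq_zero (q := q) ha.2 hb.2 hc.2 (by rw [Hq]; exact one_ne_zero)))
  have hsub : R ⊆ insert q ((R.filter fun x => F x = 0) ∪ (R.filter fun x => G x = 0)) := by
    intro x hx
    simp only [mem_insert, mem_union, mem_filter, hx, true_and]
    exact h.cover x (hR hx)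
  have := (card_le_card hsub).trans ((card_insert_le _ _).trans
    (Nat.add_le_add_right (card_union_le _ _) 1))
  have := key F h.hF h.Fq
  have := key G h.hG h.Gq
  omega

end Pool.Agent.P.MP_639dfe_co
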