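import Pool.Agent.P.MP_639dfe_co.Defs

namespace Pool.Agent.P.MP_639dfe_co

open Finset

/-- twice the signed area -/
def D (a b c : ℝ × ℝ) : ℝ := (b.1 - a.1) * (c.2 - a.2) - (b.2 - a.2) * (c.1 - a.1)

theorem orient_eq (a b c : ℝ × ℝ) : orient a b c = SignType.sign (D a b c) := rfl

theorem D_cyc (a b c : ℝ × ℝ) : D a b c = D b c a := by unfold D; ring
theorem D_swap12 (a b c : ℝ × ℝ) : D a b c = - D b a c := by unfold D; ring
theorem D_swap23 (a b c : ℝ × ℝ) : D a b c = - D a c b := by unfold D; ring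
theorem D_swap13 (a b c : ℝ × ℝ) : D a b c = - D c b a := by unfold D; ring
@[simp] theorem D_self12 (a c : ℝ × ℝ) : D a a c = 0 := by unfold D; ring
@[simp] theorem D_self13 (a b : ℝ × ℝ) : D a b a = 0 := by unfold D; ring
@[simp] theorem D_self23 (a b : ℝ × ℝ) : D a b b = 0 := by unfold D; ring

/-- affine functions on the plane -/
def IsAff (F : ℝ × ℝ → ℝ) : Prop := ∃ α β γ : ℝ, ∀ x, F x = α * x.1 + β * x.2 + γ

theorem isAff_D (a b : ℝ × ℝ) : IsAff (D a b) :=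
  ⟨-(b.2 - a.2), b.1 - a.1, (b.2 - a.2) * a.1 - (b.1 - a.1) * a.2, fun x => by unfold D; ring⟩

theorem IsAff.div {F : ℝ × ℝ → ℝ} (h : IsAff F) (c : ℝ) : IsAff fun x => F x / c := by
  obtain ⟨α, β, γ, h⟩ := h
  exact ⟨α / c, β / c, γ / c, fun x => by simp only [h]; ring⟩

theorem IsAff.key {F : ℝ × ℝ → ℝ} (h : IsAff F) {x y : ℝ × ℝ} (hx : F x = 0) (hy : F y = 0)
    (z q : ℝ × ℝ) : F z * D x y q = F q * D x y z := by
  obtain ⟨α, β, γ, h⟩ := h
  rw [h] at hx hy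
  rw [h, h]
  unfold D
  linear_combination (((z.1 - y.1) * (q.2 - y.2) - (z.2 - y.2) * (q.1 - y.1))) * (-hx) +
    (((z.1 - x.1) * (q.2 - x.2) - (z.2 - x.2) * (q.1 - x.1))) * hy

theorem exists_D_ne_zero {x y : ℝ × ℝ} (h : x ≠ y) : ∃ q, D x y q ≠ 0 := by
  refine ⟨(x.1 - (y.2 - x.2), x.2 + (y.1 - x.1)), fun h0 => h ?_⟩
  have h1 : (y.1 - x.1) ^ 2 + (y.2 - x.2) ^ 2 = 0 := by
    unfold D at h0
    linear_combination h0
  have h2 : y.1 - x.1 = 0 := by nlinarith [sq_nonneg (y.1 - x.1), sq_nonneg (y.2 - x.2)]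
  have h3 : y.2 - x.2 = 0 := by nlinarith [sq_nonneg (y.1 - x.1), sq_nonneg (y.2 - x.2)]
  exact Prod.ext (by linarith) (by linarith)

theorem IsAff.D_ne_zero {F : ℝ × ℝ → ℝ} (h : IsAff F) {x y z : ℝ × ℝ} (hx : F x = 0)
    (hy : F y = 0) (hxy : x ≠ y) (hz : F z ≠ 0) : D x y z ≠ 0 := by
  intro h0
  obtain ⟨q, hq⟩ := exists_D_ne_zero hxy
  have := h.key hx hy z q
  rw [h0, mul_zero] at this
  exact (mul_ne_zero hz hq) this

theorem IsAff.D_eq_zero {F : ℝ × ℝ → ℝ} (h : IsAff F) {x y z q : ℝ × ℝ} (hx : F x = 0)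
    (hy : F y = 0) (hz : F z = 0) (hq : F q ≠ 0) : D x y z = 0 := by
  have := h.key hx hy z q
  rw [hz, zero_mul] at this
  exact (mul_eq_zero.1 this.symm).resolve_left hq

theorem D_eq_zero_of_collinear {a b c : ℝ × ℝ} (h : Collinear ℝ {a, b, c}) : D a b c = 0 := by
  obtain ⟨v, hv⟩ := (collinear_iff_of_mem (p₀ := a) (by simp)).1 h
  obtain ⟨r, hr⟩ := hv b (by simp)
  obtain ⟨s, hs⟩ := hv c (by simp)
  rw [hr, hs]
  simp only [D, vadd_eq_add, Prod.fst_add, Prod.snd_add, Prod.smul_fst, Prod.smul_snd,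
    smul_eq_mul]
  ring

/-- general position, in terms of `D` -/
def GP (P : Finset (ℝ × ℝ)) : Prop :=
  ∀ a ∈ P, ∀ b ∈ P, ∀ c ∈ P, a ≠ b → a ≠ c → b ≠ c → D a b c ≠ 0

theorem GP.genPos {P : Finset (ℝ × ℝ)} (h : GP P) : GenPos P :=
  fun a ha b hb c hc hab hac hbc hcol => h a ha b hb c hc hab hac hbc (D_eq_zero_of_collinear hcol)

theorem GP.insert {P : Finset (ℝ × ℝ)} (h : GP P) {x : ℝ × ℝ}
    (hx : ∀ a ∈ P, ∀ b ∈ P, a ≠ b → D a b x ≠ 0) : GP (insert x P) := by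
  intro a ha b hb c hc hab hac hbc
  rw [mem_insert] at ha hb hc
  rcases ha with rfl | ha
  · rcases hb with rfl | hb
    · exact absurd rfl hab
    rcases hc with rfl | hc
    · exact absurd rfl hac
    rw [D_cyc]
    exact hx b hb c hc hbc
  rcases hb with rfl | hb
  · rcases hc with rfl | hc
    · exact absurd rfl hbc
    rw [D_cyc, D_cyc]
    exact hx c hc a ha hac.symm
  rcases hc with rfl | hc
  · exact hx a ha b hb hab
  exact h a ha b hb c hc hab hac hbc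

theorem GP_empty : GP ∅ := fun _ ha => absurd ha (notMem_empty _)

open Classical in
theorem exists_heavy_line {S : Finset (ℝ × ℝ)} (hS : ∀ R ⊆ S, GP R → R.card < 6)
    (hcard : 430 < S.card) :
    ∃ u v, u ≠ v ∧ 18 ≤ (S.filter fun x => D u v x = 0).card := by
  by_contra hcon
  push Not at hcon
  obtain ⟨R, hR, hmax⟩ := exists_max_image (S.powerset.filter GP) card
    ⟨∅, mem_filter.2 ⟨empty_mem_powerset _, GP_empty⟩⟩
  obtain ⟨hRS, hRg⟩ := mem_filter.1 hR
  rw [mem_powerset] at hRS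
  have hR5 : R.card ≤ 5 := Nat.lt_succ_iff.1 (hS R hRS hRg)
  have hsub : S ⊆ R ∪ R.offDiag.biUnion fun p => S.filter fun x => D p.1 p.2 x = 0 := by
    intro x hx
    by_cases hxR : x ∈ R
    · exact mem_union_left _ hxR
    refine mem_union_right _ ?_
    by_contra hn
    have hg : GP (insert x R) := hRg.insert fun a ha b hb hab h0 =>
      hn (mem_biUnion.2 ⟨(a, b), mem_offDiag.2 ⟨ha, hb, hab⟩, mem_filter.2 ⟨hx, h0⟩⟩)
    have := hmax (insert x R) (mem_filter.2 ⟨mem_powerset.2 (insert_subset hx hRS), hg⟩)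
    rw [card_insert_of_notMem hxR] at this
    omega
  have h1 : (R.offDiag.biUnion fun p => S.filter fun x => D p.1 p.2 x = 0).card ≤
      R.offDiag.card * 17 := by
    refine card_biUnion_le_card_mul _ _ _ fun p hp => ?_
    have := hcon p.1 p.2 (mem_offDiag.1 hp).2.2
    omega
  have h2 : R.offDiag.card ≤ 25 := by
    rw [offDiag_card]
    have : R.card * R.card ≤ 5 * 5 := Nat.mul_le_mul hR5 hR5
    omega
  have h3 := (card_le_card hsub).trans (card_union_le _ _)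
  omega

open Classical in
theorem extend_two {S T : Finset (ℝ × ℝ)} {F : ℝ × ℝ → ℝ} (hF : IsAff F) (hTS : T ⊆ S)
    (hT : ∀ x ∈ T, F x ≠ 0) (hg : GP T)
    (hcard : T.card * T.card + 2 ≤ (S.filter fun x => F x = 0).card) :
    ∃ R ⊆ S, GP R ∧ R.card = T.card + 2 := by
  set L := S.filter fun x => F x = 0 with hL
  set B := T.offDiag.biUnion fun p => L.filter fun x => D p.1 p.2 x = 0 with hB
  have h1 : B.card ≤ T.offDiag.card * 1 := by
    refine card_biUnion_le_card_mul _ _ _ fun p hp => ?_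
    obtain ⟨ha, hb, hab⟩ := mem_offDiag.1 hp
    rw [card_le_one]
    intro x hx y hy
    by_contra hxy
    obtain ⟨hxL, hx0⟩ := mem_filter.1 hx
    obtain ⟨hyL, hy0⟩ := mem_filter.1 hy
    obtain ⟨q, hq⟩ := exists_D_ne_zero hab
    exact hF.D_ne_zero (mem_filter.1 hxL).2 (mem_filter.1 hyL).2 hxy (hT _ ha)
      ((isAff_D p.1 p.2).D_eq_zero hx0 hy0 (D_self13 _ _) hq)
  have h2 : T.offDiag.card ≤ T.card * T.card := by
    rw [offDiag_card]; omega
  have h3 : 1 < (L \ B).card := by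
    have := le_card_sdiff B L
    omega
  obtain ⟨u, hu, v, hv, huv⟩ := one_lt_card.1 h3
  obtain ⟨huL, huB⟩ := mem_sdiff.1 hu
  obtain ⟨hvL, hvB⟩ := mem_sdiff.1 hv
  have key : ∀ w ∈ L, w ∉ B → ∀ a ∈ T, ∀ b ∈ T, a ≠ b → D a b w ≠ 0 := by
    intro w hwL hwB a ha b hb hab h0
    exact hwB (mem_biUnion.2 ⟨(a, b), mem_offDiag.2 ⟨ha, hb, hab⟩, mem_filter.2 ⟨hwL, h0⟩⟩)
  have hFu : F u = 0 := (mem_filter.1 huL).2
  have hFv : F v = 0 := (mem_filter.1 hvL).2
  have hvT : v ∉ T := fun h => hT v h hFv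
  have huT : u ∉ insert v T := by
    rw [mem_insert]
    rintro (h | h)
    · exact huv h
    · exact hT u h hFu
  refine ⟨insert u (insert v T), ?_, ?_, ?_⟩
  · exact insert_subset (mem_filter.1 huL).1 (insert_subset (mem_filter.1 hvL).1 hTS)
  · refine (hg.insert (key v hvL hvB)).insert ?_
    intro a ha b hb hab
    rw [mem_insert] at ha hb
    rcases ha with rfl | ha
    · rcases hb with rfl | hb
      · exact absurd rfl hab
      · rw [D_cyc, D_cyc]
        exact hF.D_ne_zero hFu hFv huv (hT b hb)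
    · rcases hb with rfl | hb
      · rw [D_cyc]
        exact hF.D_ne_zero hFv hFu huv.symm (hT a ha)
      · exact key u huL huB a ha b hb hab
  · rw [card_insert_of_notMem huT, card_insert_of_notMem hvT]

theorem GP_four {w x y z : ℝ × ℝ} (h1 : D w x y ≠ 0) (h2 : D w x z ≠ 0) (h3 : D w y z ≠ 0)
    (h4 : D x y z ≠ 0) :
    GP {z, y, x, w} ∧ ({z, y, x, w} : Finset (ℝ × ℝ)).card = 4 := by
  have hwx : w ≠ x := by rintro rfl; simp at h1
  have hwy : w ≠ y := by rintro rfl; simp at h1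
  have hwz : w ≠ z := by rintro rfl; simp at h2
  have hxy : x ≠ y := by rintro rfl; simp at h1
  have hxz : x ≠ z := by rintro rfl; simp at h2
  have hyz : y ≠ z := by rintro rfl; simp at h3
  constructor
  · have g1 : GP {w} := by
      intro a ha b hb c _ hab
      rw [mem_singleton] at ha hb
      exact absurd (ha.trans hb.symm) hab
    have g2 : GP {x, w} := g1.insert fun a ha b hb hab => by
      rw [mem_singleton] at ha hb
      exact absurd (ha.trans hb.symm) hab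
    have g3 : GP {y, x, w} := g2.insert fun a ha b hb hab => by
      simp only [mem_insert, mem_singleton] at ha hb
      rcases ha with rfl | rfl <;> rcases hb with rfl | rfl
      · exact absurd rfl hab
      · rw [D_swap12]; exact neg_ne_zero.2 h1
      · exact h1
      · exact absurd rfl hab
    refine g3.insert fun a ha b hb hab => ?_
    simp only [mem_insert, mem_singleton] at ha hb
    rcases ha with rfl | rfl | rfl <;> rcases hb with rfl | rfl | rfl
    · exact absurd rfl hab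
    · rw [D_swap12]; exact neg_ne_zero.2 h4
    · rw [D_swap12]; exact neg_ne_zero.2 h3
    · exact h4
    · exact absurd rfl hab
    · rw [D_swap12]; exact neg_ne_zero.2 h2
    · exact h3
    · exact h2
    · exact absurd rfl hab
  · rw [card_insert_of_notMem, card_insert_of_notMem, card_insert_of_notMem, card_singleton]
    · simpa using hwx.symm
    · simp only [mem_insert, mem_singleton, not_or]; exact ⟨hxy.symm, hwy.symm⟩
    · simp only [mem_insert, mem_singleton, not_or]; exact ⟨hyz.symm, hxz.symm, hwz.symm⟩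

/-- no four points in general position -/
def NoFour (T : Set (ℝ × ℝ)) : Prop :=
  ∀ w ∈ T, ∀ x ∈ T, ∀ y ∈ T, ∀ z ∈ T, D w x y ≠ 0 → D w x z ≠ 0 → D w y z ≠ 0 → D x y z ≠ 0 → False

theorem NoFour.two_sides {T : Set (ℝ × ℝ)} (H : NoFour T) {a b c e f : ℝ × ℝ} (hb : b ∈ T)
    (hc : c ∈ T) (he : e ∈ T) (hf : f ∈ T) (habc : D a b c ≠ 0) (hac : D a c e = 0)
    (hea : e ≠ a) (hec : e ≠ c) (hab : D a b f = 0) (hfa : f ≠ a) (hfb : f ≠ b) : False := by
  have hacb : D a c b ≠ 0 := by rw [D_swap23]; exact neg_ne_zero.2 habc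
  have habe : D a b e ≠ 0 := by
    have := (isAff_D a c).D_ne_zero (D_self13 a c) hac hea.symm hacb
    rw [D_swap23]; exact neg_ne_zero.2 this
  have hacf : D a c f ≠ 0 := by
    have := (isAff_D a b).D_ne_zero (D_self13 a b) hab hfa.symm habc
    rw [D_swap23]; exact neg_ne_zero.2 this
  refine H c hc e he b hb f hf ?_ ?_ ?_ ?_
  · exact (isAff_D a c).D_ne_zero (D_self23 a c) hac hec.symm hacb
  · exact (isAff_D a c).D_ne_zero (D_self23 a c) hac hec.symm hacf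
  · rw [D_cyc]
    exact (isAff_D a b).D_ne_zero (D_self23 a b) hab hfb.symm habc
  · rw [D_cyc]
    exact (isAff_D a b).D_ne_zero (D_self23 a b) hab hfb.symm habe

theorem NoFour.half {T : Set (ℝ × ℝ)} (H : NoFour T) {a b c e f : ℝ × ℝ} (ha : a ∈ T)
    (hb : b ∈ T) (hc : c ∈ T) (he : e ∈ T) (hf : f ∈ T) (habc : D a b c ≠ 0)
    (hac : D a c e = 0) (hea : e ≠ a) (hec : e ≠ c) (hfb : f ≠ b) (hacf : D a c f ≠ 0) :
    False := by
  have hfa : f ≠ a := by rintro rfl; simp at hacf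
  have hfc : f ≠ c := by rintro rfl; simp at hacf
  by_cases h1 : D a b f = 0
  · exact H.two_sides hb hc he hf habc hac hea hec h1 hfa hfb
  by_cases h2 : D b c f = 0
  · refine H.two_sides (a := c) (b := b) (c := a) hb ha he hf ?_ ?_ hec hea ?_ hfc hfb
    · rw [D_swap13]; exact neg_ne_zero.2 habc
    · rw [D_swap12, hac, neg_zero]
    · rw [D_swap12, h2, neg_zero]
  exact H a ha b hb c hc f hf habc h1 hacf h2

theorem NoFour.structure {T : Set (ℝ × ℝ)} (H : NoFour T) :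
    ∃ G : ℝ × ℝ → ℝ, IsAff G ∧
      ((∃ q ∈ T, G q ≠ 0 ∧ ∀ x ∈ T, x = q ∨ G x = 0) ∨ ((∃ p, G p ≠ 0) ∧ ∀ x ∈ T, G x = 0)) := by
  by_cases h : ∃ a ∈ T, ∃ b ∈ T, ∃ c ∈ T, D a b c ≠ 0
  · obtain ⟨a, ha, b, hb, c, hc, habc⟩ := h
    by_cases h1 : ∀ x ∈ T, x = c ∨ D a b x = 0
    · exact ⟨D a b, isAff_D a b, Or.inl ⟨c, hc, habc, h1⟩⟩
    by_cases h2 : ∀ x ∈ T, x = a ∨ D b c x = 0
    · exact ⟨D b c, isAff_D b c, Or.inl ⟨a, ha, by rwa [← D_cyc], h2⟩⟩
    by_cases h3 : ∀ x ∈ T, x = b ∨ D a c x = 0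
    · exact ⟨D a c, isAff_D a c, Or.inl ⟨b, hb, by rw [D_swap23]; exact neg_ne_zero.2 habc, h3⟩⟩
    exfalso
    push Not at h1 h2 h3
    obtain ⟨e, he, hec, habe⟩ := h1
    obtain ⟨e', he', hea', hbce'⟩ := h2
    obtain ⟨e'', he'', heb'', hace''⟩ := h3
    have hea : e ≠ a := by rintro rfl; simp at habe
    have heb : e ≠ b := by rintro rfl; simp at habe
    by_cases k1 : D a c e = 0
    · exact H.half ha hb hc he he'' habc k1 hea hec heb'' hace''
    by_cases k2 : D b c e = 0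
    · refine H.half hb ha hc he he' ?_ k2 heb hec hea' hbce'
      rw [D_swap12]; exact neg_ne_zero.2 habc
    exact H a ha b hb c hc e he habc habe k1 k2
  push Not at h
  by_cases h1 : ∃ a ∈ T, ∃ b ∈ T, a ≠ b
  · obtain ⟨a, ha, b, hb, hab⟩ := h1
    exact ⟨D a b, isAff_D a b, Or.inr ⟨exists_D_ne_zero hab, fun x hx => h a ha b hb x hx⟩⟩
  push Not at h1
  rcases T.eq_empty_or_nonempty with rfl | ⟨a, ha⟩
  · exact ⟨fun _ => 1, ⟨0, 0, 1, fun x => by ring⟩, Or.inr ⟨⟨0, one_ne_zero⟩, by simp⟩⟩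
  · refine ⟨fun x => x.1 - a.1, ⟨1, 0, -a.1, fun x => by ring⟩, Or.inr ⟨⟨(a.1 + 1, 0), by simp⟩,
      fun x hx => ?_⟩⟩
    rw [h1 x hx a ha]
    exact sub_self _

theorem exists_both_ne_zero {F G : ℝ × ℝ → ℝ} (hF : IsAff F) (hG : IsAff G)
    (h1 : ∃ p, F p ≠ 0) (h2 : ∃ p, G p ≠ 0) : ∃ q, F q ≠ 0 ∧ G q ≠ 0 := by
  obtain ⟨p, hp⟩ := h1
  obtain ⟨r, hr⟩ := h2
  by_cases k1 : G p = 0
  · by_cases k2 : F r = 0
    · obtain ⟨α, β, γ, hF⟩ := hF
      obtain ⟨α', β', γ', hG⟩ := hG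
      refine ⟨((p.1 + r.1) / 2, (p.2 + r.2) / 2), fun h => hp ?_, fun h => hr ?_⟩
      · rw [hF] at h k2 ⊢
        linear_combination 2 * h - k2
      · rw [hG] at h k1 ⊢
        linear_combination 2 * h - k1
    · exact ⟨r, k2, hr⟩
  · exact ⟨p, hp, k1⟩

/-- `S` lies in two lines not through `q`, plus possibly `q` -/
def TwoLines (S : Finset (ℝ × ℝ)) (q : ℝ × ℝ) : Prop :=
  ∃ F G : ℝ × ℝ → ℝ, IsAff F ∧ IsAff G ∧ F q = 1 ∧ G q = 1 ∧ ∀ x ∈ S, x = q ∨ F x = 0 ∨ G x = 0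

theorem exists_twoLines {S : Finset (ℝ × ℝ)} (hS : InClass 6 S) (hcard : 430 < S.card) :
    ∃ q, TwoLines S q := by
  classical
  have hS' : ∀ R ⊆ S, GP R → R.card < 6 := fun R hR hg => hS R hR hg.genPos
  obtain ⟨u, v, huv, hL⟩ := exists_heavy_line hS' hcard
  have H : NoFour {x | x ∈ S ∧ D u v x ≠ 0} := by
    intro w hw x hx y hy z hz h1 h2 h3 h4
    obtain ⟨hg, hc⟩ := GP_four h1 h2 h3 h4
    obtain ⟨R, hR, hRg, hRc⟩ := extend_two (S := S) (isAff_D u v) (T := {z, y, x, w})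
      (by
        intro t ht
        simp only [mem_insert, mem_singleton] at ht
        rcases ht with rfl | rfl | rfl | rfl
        exacts [hz.1, hy.1, hx.1, hw.1])
      (by
        intro t ht
        simp only [mem_insert, mem_singleton] at ht
        rcases ht with rfl | rfl | rfl | rfl
        exacts [hz.2, hy.2, hx.2, hw.2])
      hg (by rw [hc]; convert hL)
    have := hS' R hR hRg
    omega
  obtain ⟨G, hG, h⟩ := H.structure
  have main : ∃ q, D u v q ≠ 0 ∧ G q ≠ 0 ∧ ∀ x ∈ S, D u v x ≠ 0 → x = q ∨ G x = 0 := by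
    rcases h with ⟨q, hq, hGq, h⟩ | ⟨hp, h⟩
    · exact ⟨q, hq.2, hGq, fun x hx h0 => h x ⟨hx, h0⟩⟩
    · obtain ⟨q, h1, h2⟩ := exists_both_ne_zero (isAff_D u v) hG (exists_D_ne_zero huv) hp
      exact ⟨q, h1, h2, fun x hx h0 => Or.inr (h x ⟨hx, h0⟩)⟩
  obtain ⟨q, h1, h2, h3⟩ := main
  refine ⟨q, fun x => D u v x / D u v q, fun x => G x / G q, (isAff_D u v).div _, hG.div _,
    div_self h1, div_self h2, fun x hx => ?_⟩
  by_cases h0 : D u v x = 0
  · exact Or.inr (Or.inl (by simp only [h0, zero_div]))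
  · rcases h3 x hx h0 with h | h
    · exact Or.inl h
    · exact Or.inr (Or.inr (by simp only [h, zero_div]))

end Pool.Agent.P.MP_639dfe_co
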