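import Pool.Agent.P.MP_639dfe_co.Structure

namespace Pool.Agent.P.MP_639dfe_co

open Finset SignType

theorem exists_map_of_map_eq {σ : Type} (c₁ c₂ : ℝ → σ) :
    ∀ (l₁ l₂ : List ℝ), l₁.Pairwise (· < ·) → l₂.Pairwise (· < ·) → l₁.map c₁ = l₂.map c₂ →
      ∃ φ : ℝ → ℝ, (∀ x ∈ l₁, ∀ y ∈ l₁, x < y → φ x < φ y) ∧
        ∀ k ∈ l₁, φ k ∈ l₂ ∧ c₂ (φ k) = c₁ k
  | [], _, _, _, _ => ⟨id, by simp, by simp⟩
  | _ :: _, [], _, _, h => by simp at h
  | x :: t₁, y :: t₂, h₁, h₂, h => by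
    rw [List.map_cons, List.map_cons, List.cons.injEq] at h
    rw [List.pairwise_cons] at h₁ h₂
    obtain ⟨φ, hφ, hφ'⟩ := exists_map_of_map_eq c₁ c₂ t₁ t₂ h₁.2 h₂.2 h.2
    have hne : ∀ k ∈ t₁, Function.update φ x y k = φ k := fun k hk =>
      Function.update_of_ne (h₁.1 k hk).ne' _ _
    refine ⟨Function.update φ x y, fun a ha b hb hab => ?_, fun k hk => ?_⟩
    · rcases List.mem_cons.1 ha with rfl | ha'
      · rcases List.mem_cons.1 hb with rfl | hb'
        · exact absurd hab (lt_irrefl _)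
        · rw [Function.update_self, hne b hb']
          exact h₂.1 _ (hφ' b hb').1
      · rcases List.mem_cons.1 hb with rfl | hb'
        · exact absurd (hab.trans (h₁.1 a ha')) (lt_irrefl _)
        · rw [hne a ha', hne b hb']
          exact hφ a ha' b hb' hab
    · rcases List.mem_cons.1 hk with rfl | hk
      · rw [Function.update_self]
        exact ⟨List.mem_cons_self, h.1.symm⟩
      · rw [hne k hk]
        exact ⟨List.mem_cons_of_mem _ (hφ' k hk).1, (hφ' k hk).2⟩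

theorem pairwise_sort_lt (K : Finset ℝ) : (K.sort (· ≤ ·)).Pairwise (· < ·) :=
  (K.sortedLT_sort).pairwise

theorem higman_real {σ : Type} [Finite σ] (K : ℕ → Finset ℝ) (c : ℕ → ℝ → σ) :
    ∃ i j, i < j ∧ ∃ φ : ℝ → ℝ, (∀ x ∈ K i, ∀ y ∈ K i, x < y → φ x < φ y) ∧
      ∀ k ∈ K i, φ k ∈ K j ∧ c j (φ k) = c i k := by
  have h0 : (Set.univ : Set σ).PartiallyWellOrderedOn (· = ·) :=
    Set.finite_univ.partiallyWellOrderedOn
  obtain ⟨i, j, hij, h⟩ :=
    (Set.PartiallyWellOrderedOn.partiallyWellOrderedOn_sublistForall₂ (· = ·) h0).exists_lt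
      (f := fun i => ((K i).sort (· ≤ ·)).map (c i)) fun _ _ _ => Set.mem_univ _
  obtain ⟨l, hl, hl'⟩ := List.sublistForall₂_iff.1 h
  rw [List.forall₂_eq_eq_eq] at hl
  obtain ⟨l', h1, h2⟩ := List.sublist_map_iff.1 hl'
  obtain ⟨φ, hφ, hφ'⟩ := exists_map_of_map_eq (c i) (c j) _ l' (pairwise_sort_lt (K i))
    ((pairwise_sort_lt (K j)).sublist h1) (hl.trans h2)
  refine ⟨i, j, hij, φ, fun x hx y hy => hφ x ((mem_sort _).2 hx) y ((mem_sort _).2 hy),
    fun k hk => ⟨?_, (hφ' k ((mem_sort _).2 hk)).2⟩⟩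
  exact (mem_sort (· ≤ ·)).1 (h1.subset (hφ' k ((mem_sort _).2 hk)).1)

theorem sameType_image {S : Finset (ℝ × ℝ)} {f : ℝ × ℝ → ℝ × ℝ} (hf : Set.InjOn f S)
    (h : ∀ x ∈ S, ∀ y ∈ S, ∀ z ∈ S, sign (D (f x) (f y) (f z)) = sign (D x y z)) :
    SameType S (S.image f) := by
  have hb : Set.BijOn f S (S.image f) := by
    rw [coe_image]
    exact hf.bijOn_image
  exact ⟨hb.equiv f, fun a b c => h a a.2 b b.2 c c.2⟩

theorem sign_D_of_line {F : ℝ × ℝ → ℝ} (hF : IsAff F) {q x y : ℝ × ℝ} (hq : F q = 1)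
    (hx : F x = 0) (hy : F y = 0) (z : ℝ × ℝ) :
    sign (D x y z) = sign (F z) * sign (D q x y) := by
  have := hF.key hx hy z q
  rw [hq, one_mul] at this
  rw [← this, sign_mul, D_cyc q x y]

/-- a map that keeps the sides of both lines and the orientations at `q` keeps the order type -/
theorem transfer {S : Finset (ℝ × ℝ)} {q q' : ℝ × ℝ} {F G F' G' : ℝ × ℝ → ℝ}
    (hF : IsAff F) (hG : IsAff G) (hF' : IsAff F') (hG' : IsAff G')
    (hFq : F q = 1) (hGq : G q = 1) (hFq' : F' q' = 1) (hGq' : G' q' = 1)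
    (hS : ∀ x ∈ S, x = q ∨ F x = 0 ∨ G x = 0) {f : ℝ × ℝ → ℝ × ℝ} (hfq : f q = q')
    (h1 : ∀ x ∈ S, sign (F' (f x)) = sign (F x)) (h2 : ∀ x ∈ S, sign (G' (f x)) = sign (G x))
    (h3 : ∀ x ∈ S, ∀ y ∈ S, sign (D q' (f x) (f y)) = sign (D q x y)) :
    Set.InjOn f S ∧
      ∀ x ∈ S, ∀ y ∈ S, ∀ z ∈ S, sign (D (f x) (f y) (f z)) = sign (D x y z) := by
  have lineF : ∀ x ∈ S, ∀ y ∈ S, ∀ z ∈ S, F x = 0 → F y = 0 →
      sign (D (f x) (f y) (f z)) = sign (D x y z) := by
    intro x hx y hy z hz kx ky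
    have kx' : F' (f x) = 0 := sign_eq_zero_iff.1 (by rw [h1 x hx, kx, sign_zero])
    have ky' : F' (f y) = 0 := sign_eq_zero_iff.1 (by rw [h1 y hy, ky, sign_zero])
    rw [sign_D_of_line hF hFq kx ky, sign_D_of_line hF' hFq' kx' ky', h1 z hz, h3 x hx y hy]
  have lineG : ∀ x ∈ S, ∀ y ∈ S, ∀ z ∈ S, G x = 0 → G y = 0 →
      sign (D (f x) (f y) (f z)) = sign (D x y z) := by
    intro x hx y hy z hz kx ky
    have kx' : G' (f x) = 0 := sign_eq_zero_iff.1 (by rw [h2 x hx, kx, sign_zero])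
    have ky' : G' (f y) = 0 := sign_eq_zero_iff.1 (by rw [h2 y hy, ky, sign_zero])
    rw [sign_D_of_line hG hGq kx ky, sign_D_of_line hG' hGq' kx' ky', h2 z hz, h3 x hx y hy]
  constructor
  · intro x hx y hy hxy
    by_contra hne
    have e1 : sign (F x) = sign (F y) := by rw [← h1 x hx, ← h1 y hy, hxy]
    have e2 : sign (G x) = sign (G y) := by rw [← h2 x hx, ← h2 y hy, hxy]
    have e3 : D q x y = 0 := by
      rw [← sign_eq_zero_iff, ← h3 x hx y hy, hxy, D_self23, sign_zero]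
    rw [D_cyc] at e3
    have caseF : F x = 0 ∨ F y = 0 → False := by
      intro h
      have : F x = 0 ∧ F y = 0 := by
        rcases h with h | h
        · exact ⟨h, sign_eq_zero_iff.1 (by rw [← e1, h, sign_zero])⟩
        · exact ⟨sign_eq_zero_iff.1 (by rw [e1, h, sign_zero]), h⟩
      exact hF.D_ne_zero this.1 this.2 hne (by rw [hFq]; exact one_ne_zero) e3
    have caseG : G x = 0 ∨ G y = 0 → False := by
      intro h
      have : G x = 0 ∧ G y = 0 := by
        rcases h with h | h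
        · exact ⟨h, sign_eq_zero_iff.1 (by rw [← e2, h, sign_zero])⟩
        · exact ⟨sign_eq_zero_iff.1 (by rw [e2, h, sign_zero]), h⟩
      exact hG.D_ne_zero this.1 this.2 hne (by rw [hGq]; exact one_ne_zero) e3
    rcases hS x hx with rfl | h | h
    · rcases hS y hy with rfl | h | h
      · exact hne rfl
      · exact caseF (Or.inr h)
      · exact caseG (Or.inr h)
    · exact caseF (Or.inl h)
    · exact caseG (Or.inl h)
  · intro x hx y hy z hz
    by_cases ex : x = q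
    · subst ex
      rw [hfq]; exact h3 y hy z hz
    by_cases ey : y = q
    · subst ey
      rw [D_cyc, D_cyc x, hfq]; exact h3 z hz x hx
    by_cases ez : z = q
    · subst ez
      rw [← D_cyc, ← D_cyc z, hfq]; exact h3 x hx y hy
    rcases (hS x hx).resolve_left ex with kx | kx <;>
      rcases (hS y hy).resolve_left ey with ky | ky <;>
      rcases (hS z hz).resolve_left ez with kz | kz
    · exact lineF x hx y hy z hz kx ky
    · exact lineF x hx y hy z hz kx ky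
    · rw [← D_cyc, ← D_cyc z]; exact lineF z hz x hx y hy kz kx
    · rw [D_cyc, D_cyc x]; exact lineG y hy z hz x hx ky kz
    · rw [D_cyc, D_cyc x]; exact lineF y hy z hz x hx ky kz
    · rw [← D_cyc, ← D_cyc z]; exact lineG z hz x hx y hy kz kx
    · exact lineG x hx y hy z hz kx ky
    · exact lineG x hx y hy z hz kx ky

theorem exists_generic (S : Finset (ℝ × ℝ)) (q : ℝ × ℝ) :
    ∃ t : ℝ, ∀ x ∈ S, x ≠ q → (x.1 - q.1) + t * (x.2 - q.2) ≠ 0 := by
  obtain ⟨t, ht⟩ := Infinite.exists_notMem_finset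
    (S.image fun x : ℝ × ℝ => -(x.1 - q.1) / (x.2 - q.2))
  refine ⟨t, fun x hx hxq h => ?_⟩
  by_cases h2 : x.2 - q.2 = 0
  · rw [h2, mul_zero, add_zero] at h
    exact hxq (Prod.ext (by linarith) (by linarith))
  · refine ht (mem_image.2 ⟨x, hx, ?_⟩)
    rw [div_eq_iff h2]
    linarith

theorem sign_sub_eq_of_mono {φ : ℝ → ℝ} {K : Finset ℝ}
    (h : ∀ x ∈ K, ∀ y ∈ K, x < y → φ x < φ y) {x y : ℝ} (hx : x ∈ K) (hy : y ∈ K) :
    sign (φ y - φ x) = sign (y - x) := by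
  rcases lt_trichotomy x y with hlt | rfl | hlt
  · rw [sign_pos (sub_pos.2 hlt), sign_pos (sub_pos.2 (h x hx y hy hlt))]
  · rw [sub_self, sub_self]
  · rw [sign_neg (sub_neg.2 hlt), sign_neg (sub_neg.2 (h y hy x hx hlt))]

theorem sign_D_key {q x y : ℝ × ℝ} {t : ℝ} (hx : (x.1 - q.1) + t * (x.2 - q.2) ≠ 0)
    (hy : (y.1 - q.1) + t * (y.2 - q.2) ≠ 0) :
    sign (D q x y) = sign ((x.1 - q.1) + t * (x.2 - q.2)) * sign ((y.1 - q.1) + t * (y.2 - q.2)) *
      sign ((y.2 - q.2) / ((y.1 - q.1) + t * (y.2 - q.2)) -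
        (x.2 - q.2) / ((x.1 - q.1) + t * (x.2 - q.2))) := by
  rw [← sign_mul, ← sign_mul]
  congr 1
  have key : ∀ a b c d : ℝ, a ≠ 0 → b ≠ 0 → a * b * (d / b - c / a) = a * d - b * c := by
    intro a b c d ha hb
    field_simp
  rw [key _ _ _ _ hx hy]
  unfold D
  ring

theorem twoLines_wqo (S : ℕ → Finset (ℝ × ℝ)) (q : ℕ → ℝ × ℝ) (h : ∀ i, TwoLines (S i) (q i)) :
    ∃ i j, i < j ∧ ∃ f : ℝ × ℝ → ℝ × ℝ, f (q i) = q j ∧
      (∀ x ∈ S i, x ≠ q i → f x ∈ S j) ∧ Set.InjOn f (insert (q i) (S i) : Finset (ℝ × ℝ)) ∧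
      ∀ x ∈ S i, ∀ y ∈ S i, ∀ z ∈ S i, sign (D (f x) (f y) (f z)) = sign (D x y z) := by
  classical
  choose F G hF hG hFq hGq hS using h
  choose t ht using fun i => exists_generic (S i) (q i)
  set g : ℕ → ℝ × ℝ → ℝ := fun i x => (x.1 - (q i).1) + t i * (x.2 - (q i).2) with hg
  set κ : ℕ → ℝ × ℝ → ℝ := fun i x => (x.2 - (q i).2) / g i x with hκ
  set lab : ℕ → ℝ × ℝ → SignType × SignType × SignType :=
    fun i x => (sign (g i x), sign (F i x), sign (G i x)) with hlab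
  obtain ⟨i, j, hij, φ, hφ, hφ'⟩ := higman_real (σ := Set (SignType × SignType × SignType))
    (fun i => ((S i).erase (q i)).image (κ i))
    (fun i k => {l | ∃ x ∈ S i, x ≠ q i ∧ κ i x = k ∧ lab i x = l})
  have hex : ∀ x, ∃ y, (x = q i → y = q j) ∧
      (x ∈ S i → x ≠ q i → y ∈ S j ∧ y ≠ q j ∧ κ j y = φ (κ i x) ∧ lab j y = lab i x) := by
    intro x
    by_cases hxq : x = q i
    · exact ⟨q j, fun _ => rfl, fun _ h => absurd hxq h⟩
    by_cases hx : x ∈ S i
    · have h1 := (hφ' (κ i x) (mem_image.2 ⟨x, mem_erase.2 ⟨hxq, hx⟩, rfl⟩)).2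
      have h2 : lab i x ∈ {l | ∃ x' ∈ S i, x' ≠ q i ∧ κ i x' = κ i x ∧ lab i x' = l} :=
        ⟨x, hx, hxq, rfl, rfl⟩
      rw [← h1] at h2
      obtain ⟨y, hy, hyq, h3, h4⟩ := h2
      exact ⟨y, fun h => absurd h hxq, fun _ _ => ⟨hy, hyq, h3, h4⟩⟩
    · exact ⟨x, fun h => absurd h hxq, fun h => absurd h hx⟩
  choose f hf1 hf2 using hex
  have hfq : f (q i) = q j := hf1 _ rfl
  have main := transfer (S := insert (q i) (S i)) (hF i) (hG i) (hF j) (hG j) (hFq i) (hGq i)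
    (hFq j) (hGq j) (f := f)
    (by
      intro x hx
      rcases mem_insert.1 hx with rfl | hx
      · exact Or.inl rfl
      · exact hS i x hx)
    hfq
    (by
      intro x hx
      by_cases hxq : x = q i
      · rw [hxq, hfq, hFq, hFq]
      · have := (hf2 x ((mem_insert.1 hx).resolve_left hxq) hxq).2.2.2
        exact congrArg (fun l => l.2.1) this)
    (by
      intro x hx
      by_cases hxq : x = q i
      · rw [hxq, hfq, hGq, hGq]
      · have := (hf2 x ((mem_insert.1 hx).resolve_left hxq) hxq).2.2.2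
        exact congrArg (fun l => l.2.2) this)
    (by
      intro x hx y hy
      by_cases hxq : x = q i
      · rw [hxq, hfq, D_self12, D_self12]
      by_cases hyq : y = q i
      · rw [hyq, hfq, D_self13, D_self13]
      have hx' := (mem_insert.1 hx).resolve_left hxq
      have hy' := (mem_insert.1 hy).resolve_left hyq
      obtain ⟨a1, a2, a3, a4⟩ := hf2 x hx' hxq
      obtain ⟨b1, b2, b3, b4⟩ := hf2 y hy' hyq
      rw [sign_D_key (ht j _ a1 a2) (ht j _ b1 b2), sign_D_key (ht i _ hx' hxq) (ht i _ hy' hyq)]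
      have c1 : sign (g j (f x)) = sign (g i x) := congrArg (fun l => l.1) a4
      have c2 : sign (g j (f y)) = sign (g i y) := congrArg (fun l => l.1) b4
      have c3 := sign_sub_eq_of_mono hφ (mem_image.2 ⟨x, mem_erase.2 ⟨hxq, hx'⟩, rfl⟩)
        (mem_image.2 ⟨y, mem_erase.2 ⟨hyq, hy'⟩, rfl⟩)
      rw [← a3, ← b3] at c3
      change sign (g j (f x)) * sign (g j (f y)) * sign (κ j (f y) - κ j (f x)) =
        sign (g i x) * sign (g i y) * sign (κ i y - κ i x)
      rw [c1, c2, c3])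
  exact ⟨i, j, hij, f, hfq, fun x hx hxq => (hf2 x hx hxq).1, main.1,
    fun x hx y hy z hz => main.2 x (mem_insert_of_mem hx) y (mem_insert_of_mem hy) z
      (mem_insert_of_mem hz)⟩

theorem pwo_mem : {S : Finset (ℝ × ℝ) | ∃ q ∈ S, TwoLines S q}.PartiallyWellOrderedOn
    IsSubconfig := by
  rw [Set.partiallyWellOrderedOn_iff_exists_lt]
  intro S hS
  choose q hq h using hS
  obtain ⟨i, j, hij, f, h1, h2, h3, h4⟩ := twoLines_wqo S q h
  refine ⟨i, j, hij, (S i).image f, fun y hy => ?_,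
    sameType_image (h3.mono (coe_subset.2 (subset_insert _ _))) h4⟩
  obtain ⟨x, hx, rfl⟩ := mem_image.1 hy
  by_cases hxq : x = q i
  · rw [hxq, h1]; exact hq j
  · exact h2 x hx hxq

theorem pwo_notMem : {S : Finset (ℝ × ℝ) | ∃ q ∉ S, TwoLines S q}.PartiallyWellOrderedOn
    IsSubconfig := by
  rw [Set.partiallyWellOrderedOn_iff_exists_lt]
  intro S hS
  choose q hq h using hS
  obtain ⟨i, j, hij, f, -, h2, h3, h4⟩ := twoLines_wqo S q h
  refine ⟨i, j, hij, (S i).image f, fun y hy => ?_,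
    sameType_image (h3.mono (coe_subset.2 (subset_insert _ _))) h4⟩
  obtain ⟨x, hx, rfl⟩ := mem_image.1 hy
  exact h2 x hx fun h => hq i (h ▸ hx)

theorem pwo_card (n : ℕ) : {S : Finset (ℝ × ℝ) | S.card = n}.PartiallyWellOrderedOn
    IsSubconfig := by
  rw [Set.partiallyWellOrderedOn_iff_exists_lt]
  intro S hS
  let e : ∀ i, S i ≃ Fin n := fun i => (S i).equivFinOfCardEq (hS i)
  let c : ℕ → Fin n → Fin n → Fin n → SignType :=
    fun i a b d => orient ((e i).symm a) ((e i).symm b) ((e i).symm d)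
  have h0 : (Set.univ : Set (Fin n → Fin n → Fin n → SignType)).PartiallyWellOrderedOn (· = ·) :=
    Set.finite_univ.partiallyWellOrderedOn
  obtain ⟨i, j, hij, h⟩ := h0.exists_lt (f := c) fun _ => Set.mem_univ _
  refine ⟨i, j, hij, S j, Subset.refl _, (e i).trans (e j).symm, fun a b d => ?_⟩
  have := congrFun (congrFun (congrFun h (e i a)) (e i b)) (e i d)
  simp only [c, Equiv.symm_apply_apply] at this
  exact this.symm

theorem pwo_card_le (n : ℕ) : {S : Finset (ℝ × ℝ) | S.card ≤ n}.PartiallyWellOrderedOn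
    IsSubconfig := by
  induction n with
  | zero => exact (pwo_card 0).mono fun S hS => Nat.le_zero.1 hS
  | succ n ih =>
    refine (ih.union (pwo_card (n + 1))).mono fun S hS => ?_
    rcases Nat.of_le_succ hS with h | h
    · exact Or.inl h
    · exact Or.inr h

theorem pwo_six : {S : Finset (ℝ × ℝ) | InClass 6 S}.PartiallyWellOrderedOn IsSubconfig := by
  refine (((pwo_card_le 430).union pwo_mem).union pwo_notMem).mono fun S hS => ?_
  by_cases h : S.card ≤ 430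
  · exact Or.inl (Or.inl h)
  obtain ⟨q, hq⟩ := exists_twoLines hS (not_le.1 h)
  by_cases hqS : q ∈ S
  · exact Or.inl (Or.inr ⟨q, hqS, hq⟩)
  · exact Or.inr ⟨q, hqS, hq⟩

end Pool.Agent.P.MP_639dfe_co
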